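import Pool.Agent.H90.SY.Defs

set_option autoImplicit false

namespace Pool.H90SY

universe u

variable {V : Type u}

/-- `v` lies in the square window with corner `(m, a)` and side `l` -/
def Win (lev : V → ℕ) (f : V → ℤ) (m l : ℕ) (a : ℤ) (v : V) : Prop :=
  m ≤ lev v ∧ lev v ≤ m + l ∧ a ≤ f v ∧ f v ≤ a + l

/-- row index -/
def rowI (lev : V → ℕ) (R : ℕ) (v : V) : ℤ := (lev v : ℤ) / R

/-- brick index in the row -/
def colI (lev : V → ℕ) (f : V → ℤ) (R : ℕ) (v : V) : ℤ :=
  (f v - 2 * R * rowI lev R v) / (4 * R)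

/-- colour of a point -/
def colr (lev : V → ℕ) (f : V → ℤ) (R : ℕ) (v : V) : ℤ :=
  (2 * rowI lev R v + colI lev f R v) % 3

theorem row_bd (lev : V → ℕ) (R : ℕ) (hR : 1 ≤ R) (v : V) :
    (R : ℤ) * rowI lev R v ≤ lev v ∧ (lev v : ℤ) < R * rowI lev R v + R := by
  unfold rowI
  have hR' : (0 : ℤ) < R := by exact_mod_cast hR
  have h1 := Int.mul_ediv_add_emod (lev v : ℤ) R
  have h2 := Int.emod_nonneg (lev v : ℤ) (ne_of_gt hR')
  have h3 := Int.emod_lt_of_pos (lev v : ℤ) hR'
  constructor <;> linarith

theorem col_bd (lev : V → ℕ) (f : V → ℤ) (R : ℕ) (hR : 1 ≤ R) (v : V) :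
    4 * (R : ℤ) * colI lev f R v + 2 * R * rowI lev R v ≤ f v ∧
      f v < 4 * (R : ℤ) * colI lev f R v + 2 * R * rowI lev R v + 4 * R := by
  unfold colI
  have hR' : (0 : ℤ) < 4 * R := by
    have : (0 : ℤ) < R := by exact_mod_cast hR
    linarith
  have h1 := Int.mul_ediv_add_emod (f v - 2 * R * rowI lev R v) (4 * R)
  have h2 := Int.emod_nonneg (f v - 2 * R * rowI lev R v) (ne_of_gt hR')
  have h3 := Int.emod_lt_of_pos (f v - 2 * R * rowI lev R v) hR'
  constructor <;> linarith

/-- points of different bricks of one colour are far apart -/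
theorem brick_sep (d : V → V → ℕ) (lev : V → ℕ) (f : V → ℤ)
    (hsymm : ∀ v w : V, d v w = d w v)
    (h1 : ∀ v w : V, (lev v : ℤ) - lev w ≤ d v w) (h2 : ∀ v w : V, f v - f w ≤ 2 * d v w)
    (R : ℕ) (hR : 1 ≤ R) (v w : V) (hd : d v w ≤ R) (hcol : colr lev f R v = colr lev f R w) :
    rowI lev R v = rowI lev R w ∧ colI lev f R v = colI lev f R w := by
  have hRz : (1 : ℤ) ≤ R := by exact_mod_cast hR
  have hdz : (d v w : ℤ) ≤ R := by exact_mod_cast hd
  have hdz' : (d w v : ℤ) ≤ R := by rw [hsymm w v]; exact hdz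
  have a1 := h1 v w
  have a2 := h1 w v
  have a3 := h2 v w
  have a4 := h2 w v
  have b1 := row_bd lev R hR v
  have b2 := row_bd lev R hR w
  have c1 := col_bd lev f R hR v
  have c2 := col_bd lev f R hR w
  set i := rowI lev R v with hi
  set i' := rowI lev R w with hi'
  set j := colI lev f R v with hj
  set j' := colI lev f R w with hj'
  have hc : (2 * i + j) % 3 = (2 * i' + j') % 3 := hcol
  -- the rows differ by at most one
  have r1 : i - i' < 2 := by
    by_contra hcon
    push Not at hcon
    have : (R : ℤ) * 2 ≤ R * (i - i') := by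
      apply mul_le_mul_of_nonneg_left hcon (by linarith)
    nlinarith
  have r2 : i' - i < 2 := by
    by_contra hcon
    push Not at hcon
    have : (R : ℤ) * 2 ≤ R * (i' - i) := by
      apply mul_le_mul_of_nonneg_left hcon (by linarith)
    nlinarith
  -- the doubled column coordinate
  have s1 : 2 * (j - j') + (i - i') < 3 := by
    by_contra hcon
    push Not at hcon
    have : 2 * (R : ℤ) * 3 ≤ 2 * R * (2 * (j - j') + (i - i')) := by
      apply mul_le_mul_of_nonneg_left hcon (by linarith)
    nlinarith
  have s2 : 2 * (j' - j) + (i' - i) < 3 := by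
    by_contra hcon
    push Not at hcon
    have : 2 * (R : ℤ) * 3 ≤ 2 * R * (2 * (j' - j) + (i' - i)) := by
      apply mul_le_mul_of_nonneg_left hcon (by linarith)
    nlinarith
  omega

/-- Three colours from a light map to the plane. Rows `lev v / R`, bricks of width `4R`
(row `i` is shifted by `2 R i`), colour `(2 i + j) mod 3`; the sets of the cover are the
`R`-components of the preimages of the bricks (same brick: window with `l = 4R`). -/
theorem brick_cover (d : V → V → ℕ) (lev : V → ℕ) (f : V → ℤ)
    (hsymm : ∀ v w : V, d v w = d w v)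
    (h1 : ∀ v w : V, (lev v : ℤ) - lev w ≤ d v w) (h2 : ∀ v w : V, f v - f w ≤ 2 * d v w)
    (near : ∀ (m l R : ℕ) (a : ℤ) (v w : V), Win lev f m l a v →
      Relation.ReflTransGen (fun x y => d x y ≤ R ∧ Win lev f m l a y) v w →
      d v w ≤ 10 * l + 28 * R + 8) :
    ∀ R : ℕ, 1 ≤ R → CoverAt d 2 R (76 * R) := by
  intro R hR
  have hRz : (1 : ℤ) ≤ R := by exact_mod_cast hR
  -- same brick
  let lk : V → V → Prop := fun x y => d x y ≤ R ∧ rowI lev R x = rowI lev R y ∧
    colI lev f R x = colI lev f R y
  have lksymm : ∀ x y, lk x y → lk y x := by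
    intro x y h
    exact ⟨by rw [hsymm]; exact h.1, h.2.1.symm, h.2.2.symm⟩
  let comp : V → Set V := fun x => {y | Relation.ReflTransGen lk x y}
  have symm' : ∀ x y, Relation.ReflTransGen lk x y → Relation.ReflTransGen lk y x := by
    intro x y h
    induction h with
    | refl => exact Relation.ReflTransGen.refl
    | tail _ hyz ih => exact Relation.ReflTransGen.head (lksymm _ _ hyz) ih
  have inv : ∀ x y, Relation.ReflTransGen lk x y →
      rowI lev R x = rowI lev R y ∧ colI lev f R x = colI lev f R y := by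
    intro x y h
    induction h with
    | refl => exact ⟨rfl, rfl⟩
    | tail _ hyz ih => exact ⟨ih.1.trans hyz.2.1, ih.2.trans hyz.2.2⟩
  -- the window of a point
  have win : ∀ x y : V, rowI lev R x = rowI lev R y → colI lev f R x = colI lev f R y →
      Win lev f ((R : ℤ) * rowI lev R x).toNat (4 * R)
        (4 * (R : ℤ) * colI lev f R x + 2 * R * rowI lev R x) y := by
    intro x y hr hcl
    have b := row_bd lev R hR y
    have c := col_bd lev f R hR y
    rw [hr, hcl]
    have hpos : 0 ≤ (R : ℤ) * rowI lev R y := by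
      apply mul_nonneg (by linarith)
      exact Int.ediv_nonneg (Int.natCast_nonneg _) (Int.natCast_nonneg _)
    have hn : (((R : ℤ) * rowI lev R y).toNat : ℤ) = (R : ℤ) * rowI lev R y :=
      Int.toNat_of_nonneg hpos
    refine ⟨?_, ?_, ?_, ?_⟩
    · omega
    · omega
    · omega
    · push_cast
      omega
  have bound : ∀ x y, Relation.ReflTransGen lk x y → d x y ≤ 76 * R := by
    intro x y h
    have h3 := near ((R : ℤ) * rowI lev R x).toNat (4 * R) R
      (4 * (R : ℤ) * colI lev f R x + 2 * R * rowI lev R x) x y (win x x rfl rfl) (by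
        induction h with
        | refl => exact Relation.ReflTransGen.refl
        | @tail z y hxz hzy ih =>
          have hi := inv x y (hxz.tail hzy)
          exact ih.tail ⟨hzy.1, win x y hi.1 hi.2⟩)
    omega
  classical
  have cpos : ∀ v, 0 ≤ colr lev f R v ∧ colr lev f R v < 3 := by
    intro v
    unfold colr
    constructor
    · exact Int.emod_nonneg _ (by norm_num)
    · exact Int.emod_lt_of_pos _ (by norm_num)
  refine ⟨Set.range comp, fun U => if h : U.Nonempty then
    ⟨(colr lev f R h.some).toNat, by have := cpos h.some; omega⟩ else 0, ?_, ?_, ?_⟩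
  · intro x
    exact ⟨comp x, ⟨x, rfl⟩, Relation.ReflTransGen.refl⟩
  · rintro U ⟨x, rfl⟩ y hy z hz
    exact bound y z ((symm' x y hy).trans hz)
  · rintro U ⟨x, rfl⟩ W ⟨y, rfl⟩ hne hcol a ha b hb
    have nx : (comp x).Nonempty := ⟨x, Relation.ReflTransGen.refl⟩
    have ny : (comp y).Nonempty := ⟨y, Relation.ReflTransGen.refl⟩
    beta_reduce at hcol
    rw [dif_pos nx, dif_pos ny] at hcol
    have hcol' : (colr lev f R nx.some).toNat = (colr lev f R ny.some).toNat :=
      congrArg Fin.val hcol
    have p1 := cpos nx.some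
    have p2 := cpos ny.some
    have e0 : colr lev f R nx.some = colr lev f R ny.some := by omega
    have cinv : ∀ x y, Relation.ReflTransGen lk x y → colr lev f R x = colr lev f R y := by
      intro x y h
      have := inv x y h
      unfold colr
      rw [this.1, this.2]
    have e1 : colr lev f R a = colr lev f R b := by
      have t1 := cinv x a ha
      have t2 := cinv x nx.some nx.some_mem
      have t3 := cinv y b hb
      have t4 := cinv y ny.some ny.some_mem
      rw [← t1, t2, e0, ← t4, t3]
    by_contra hlt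
    push Not at hlt
    have h5 := brick_sep d lev f hsymm h1 h2 R hR a b hlt e1
    have hab : lk a b := ⟨hlt, h5.1, h5.2⟩
    apply hne
    have hxy : Relation.ReflTransGen lk x y := (ha.tail hab).trans (symm' y b hb)
    ext z
    constructor
    · intro hz
      exact (symm' x y hxy).trans hz
    · intro hz
      exact hxy.trans hz

end Pool.H90SY
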