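import Pool.Agent.H90.SY.Defs

set_option autoImplicit false

namespace Pool.H90SY

universe u

variable {V : Type u}

namespace ClStep

variable {G : SimpleGraph V}

theorem lip (hc : G.Connected) (x : V) {a b : V} (h : G.Adj a b) :
    G.dist x a ≤ G.dist x b + 1 := by
  have h1 := hc.dist_triangle (u := x) (v := b) (w := a)
  have h2 : G.dist b a = 1 := SimpleGraph.dist_eq_one_iff_adj.2 h.symm
  omega

theorem tri (hc : G.Connected) (a b c : V) : G.dist a c ≤ G.dist a b + G.dist b c :=
  hc.dist_triangle

theorem pos (hc : G.Connected) {a b : V} (h : a ≠ b) : 0 < G.dist a b := hc.pos_dist_of_ne h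

theorem eq_of_zero (hc : G.Connected) {a b : V} (h : G.dist a b = 0) : a = b :=
  hc.dist_eq_zero_iff.1 h

theorem closer (hc : G.Connected) {a b : V} {k : ℕ} (h : G.dist a b = k + 1) :
    ∃ c, G.Adj a c ∧ G.dist c b = k := by
  obtain ⟨p, hp⟩ := hc.exists_walk_length_eq_dist a b
  cases p with
  | nil =>
    rw [SimpleGraph.Walk.length_nil] at hp
    omega
  | cons h1 q =>
    rename_i c
    refine ⟨c, h1, ?_⟩
    rw [SimpleGraph.Walk.length_cons] at hp
    have h2 := SimpleGraph.dist_le q
    have h3 := tri hc a c b
    have h4 : G.dist a c = 1 := SimpleGraph.dist_eq_one_iff_adj.2 h1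
    omega

theorem parent (hc : G.Connected) {x y : V} {k : ℕ} (h : G.dist x y = k + 1) :
    ∃ y', G.Adj y y' ∧ G.dist x y' = k := by
  rw [SimpleGraph.dist_comm] at h
  obtain ⟨c, h1, h2⟩ := closer hc h
  exact ⟨c, h1, by rw [SimpleGraph.dist_comm]; exact h2⟩

/-- A pair violating (CL). -/
structure Viol (G : SimpleGraph V) (r : ℕ) (x v u w : V) : Prop where
  hv : G.dist x v = r + 1
  au : G.Adj v u
  aw : G.Adj v w
  hu : G.dist x u = r
  hw : G.dist x w = r
  ne : u ≠ w
  na : ¬ G.Adj u w

theorem Viol.symm {r : ℕ} {x v u w : V} (H : Viol G r x v u w) : Viol G r x v w u :=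
  ⟨H.hv, H.aw, H.au, H.hw, H.hu, H.ne.symm, fun h => H.na h.symm⟩

theorem Viol.one_le (hc : G.Connected) {r : ℕ} {x v u w : V} (H : Viol G r x v u w) : 1 ≤ r := by
  by_contra h
  have h1 := eq_of_zero hc (a := x) (b := u) (by rw [H.hu]; omega)
  have h2 := eq_of_zero hc (a := x) (b := w) (by rw [H.hw]; omega)
  exact H.ne (h1.symm.trans h2)

section

variable {r : ℕ} {x v u w : V}

/-- S1 -/
theorem disj (hc : G.Connected) (hcl : ∀ m : ℕ, m ≤ r → CLn G m) (H : Viol G r x v u w) {z : V}
    (h1 : G.dist x z + G.dist z u = r) (h2 : G.dist x z + G.dist z w = r) (hz : z ≠ x) : False := by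
  have hpos := pos hc hz.symm
  have hzv : G.dist z v = G.dist z u + 1 := by
    have := lip hc z H.au
    have := tri hc x z v
    have := H.hv
    omega
  exact H.na (hcl (G.dist z v) (by omega) z v u w rfl H.au H.aw (by omega) (by omega) H.ne)

/-- S2 -/
theorem na (hc : G.Connected) (hB : Bridged G) (hcl : ∀ m : ℕ, m ≤ r → CLn G m)
    (htc : ∀ m : ℕ, m ≤ r → TCn G m) (H : Viol G r x v u w) {y y' : V}
    (hy : G.dist x y = 1) (hy' : G.dist x y' = 1) (h1 : 1 + G.dist y u = r)
    (h2 : 1 + G.dist y' w = r) (hadj : G.Adj y y') : False := by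
  have hv := H.hv
  have hu := H.hu
  have hw := H.hw
  by_cases hr : r = 1
  · have e1 := eq_of_zero hc (a := y) (b := u) (by omega)
    have e2 := eq_of_zero hc (a := y') (b := w) (by omega)
    rw [e1, e2] at hadj
    exact H.na hadj
  have hr1 := H.one_le hc
  have hyx : y ≠ x := by
    rintro rfl
    rw [SimpleGraph.dist_self] at hy
    omega
  have hyx' : y' ≠ x := by
    rintro rfl
    rw [SimpleGraph.dist_self] at hy'
    omega
  have dyw : G.dist y w = r := by
    have a1 := lip hc w hadj
    rw [SimpleGraph.dist_comm (u := w), SimpleGraph.dist_comm (u := w)] at a1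
    have a2 := tri hc x y w
    by_contra hne
    exact disj hc hcl H (z := y) (by omega) (by omega) hyx
  have dyu' : G.dist y' u = r := by
    have a1 := lip hc u hadj.symm
    rw [SimpleGraph.dist_comm (u := u), SimpleGraph.dist_comm (u := u)] at a1
    have a2 := tri hc x y' u
    by_contra hne
    exact disj hc hcl H (z := y') (by omega) (by omega) hyx'
  have dyv : G.dist y v = r := by
    have a1 := lip hc y H.au
    have a2 := tri hc x y v
    omega
  obtain ⟨t, tv, tw, ht⟩ := htc r le_rfl y v w H.aw dyv dyw
  have tu : t ≠ u := by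
    rintro rfl
    exact H.na tw
  have aut : G.Adj u t := hcl r le_rfl y v u t dyv H.au tv.symm (by omega) ht tu.symm
  have dxt : G.dist x t = r := by
    have a1 := tri hc x y t
    have a2 := lip hc x tv.symm
    omega
  obtain ⟨u1, au1, du1⟩ := parent hc (x := y) (y := u) (k := r - 2) (by omega)
  obtain ⟨w1, aw1, dw1⟩ := parent hc (x := y') (y := w) (k := r - 2) (by omega)
  have dxu1 : G.dist x u1 = r - 1 := by
    have a1 := tri hc x y u1
    have a2 := lip hc x au1
    omega
  have dxw1 : G.dist x w1 = r - 1 := by
    have a1 := tri hc x y' w1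
    have a2 := lip hc x aw1
    omega
  have dyw1 : G.dist y w1 = r - 1 := by
    have a1 := lip hc w1 hadj
    rw [SimpleGraph.dist_comm (u := w1), SimpleGraph.dist_comm (u := w1)] at a1
    have a2 := lip hc y aw1
    omega
  have atw1 : G.Adj t w1 := by
    refine hcl r le_rfl y w t w1 dyw tw.symm aw1 ht (by omega) ?_
    rintro rfl
    omega
  have dyt' : G.dist y' t = r - 1 := by
    have a1 := lip hc y' atw1
    have a2 := tri hc x y' t
    omega
  have dyu1' : G.dist y' u1 = r - 1 := by
    have a1 := lip hc u1 hadj.symm
    rw [SimpleGraph.dist_comm (u := u1), SimpleGraph.dist_comm (u := u1)] at a1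
    have a2 := lip hc y' au1
    omega
  have atu1 : G.Adj t u1 := by
    refine hcl r le_rfl y' u t u1 dyu' aut au1 (by omega) (by omega) ?_
    rintro rfl
    omega
  have hd1 : ∀ z : V, G.Adj u z → G.Adj w z → G.dist x z = r - 1 → False := by
    intro z z1 z2 z3
    have b1 : G.dist z u = 1 := SimpleGraph.dist_eq_one_iff_adj.2 z1.symm
    have b2 : G.dist z w = 1 := SimpleGraph.dist_eq_one_iff_adj.2 z2.symm
    refine disj hc hcl H (z := z) (by omega) (by omega) ?_
    rintro rfl
    rw [SimpleGraph.dist_self] at z3
    omega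
  have hne : u1 ≠ w1 := by
    rintro rfl
    exact hd1 u1 au1 aw1 dxu1
  have a11 : G.Adj u1 w1 :=
    hcl r le_rfl x t u1 w1 dxt atu1 atw1 (by omega) (by omega) hne
  have nuw1 : ¬ G.Adj u w1 := fun h => hd1 w1 h aw1 dxw1
  have nwu1 : ¬ G.Adj w u1 := fun h => hd1 u1 au1 h dxu1
  -- the induced cycle of length five
  have two : ∀ a b c : V, G.Adj a b → G.Adj b c → a ≠ c → ¬ G.Adj a c → G.dist a c = 2 := by
    intro a b c e1 e2 e3 e4
    have f1 := tri hc a b c
    have f2 : G.dist a b = 1 := SimpleGraph.dist_eq_one_iff_adj.2 e1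
    have f3 : G.dist b c = 1 := SimpleGraph.dist_eq_one_iff_adj.2 e2
    have f4 := pos hc e3
    have f5 : G.dist a c ≠ 1 := fun h => e4 (SimpleGraph.dist_eq_one_iff_adj.1 h)
    omega
  have nvw1 : ¬ G.Adj v w1 := fun h => by
    have := lip hc x h
    omega
  have nvu1 : ¬ G.Adj v u1 := fun h => by
    have := lip hc x h
    omega
  have evw1 : v ≠ w1 := by
    rintro rfl
    omega
  have evu1 : v ≠ u1 := by
    rintro rfl
    omega
  have euw1 : u ≠ w1 := by
    rintro rfl
    omega
  have ewu1 : w ≠ u1 := by
    rintro rfl
    omega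
  have duv : G.dist u v = 1 := SimpleGraph.dist_eq_one_iff_adj.2 H.au.symm
  have dvw : G.dist v w = 1 := SimpleGraph.dist_eq_one_iff_adj.2 H.aw
  have dww1 : G.dist w w1 = 1 := SimpleGraph.dist_eq_one_iff_adj.2 aw1
  have dw1u1 : G.dist w1 u1 = 1 := SimpleGraph.dist_eq_one_iff_adj.2 a11.symm
  have duu1 : G.dist u u1 = 1 := SimpleGraph.dist_eq_one_iff_adj.2 au1
  have duw := two u v w H.au.symm H.aw H.ne H.na
  have duw1 := two u u1 w1 au1 a11 euw1 nuw1
  have dvw1 := two v w w1 H.aw aw1 evw1 nvw1
  have dvu1 := two v u u1 H.au au1 evu1 nvu1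
  have dwu1 := two w w1 u1 aw1 a11.symm ewu1 nwu1
  refine hB 5 (by omega) ![u, v, w, w1, u1] ?_
  intro i j hij
  fin_cases i <;> fin_cases j <;>
    first
      | (exfalso; revert hij; decide)
      | (simp [duv, dvw, dww1, dw1u1, duu1, duw, duw1, dvw1, dvu1, dwu1])

/-- step CD -/
theorem cd (hc : G.Connected) (hB : Bridged G) (hcl : ∀ m : ℕ, m ≤ r → CLn G m)
    (htc : ∀ m : ℕ, m ≤ r → TCn G m) (H : Viol G r x v u w) {y : V} (hyx : y ≠ x)
    (hyu : G.dist x y + G.dist y u = r) : ∀ (n : ℕ) (t s : V), G.dist y t = n →
      G.dist x y + n = G.dist x t → (s = t ∨ G.Adj s t) → G.dist x s = G.dist x t →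
      G.dist x t ≤ r → G.dist x s + G.dist s w = r → False := by
  have hv := H.hv
  have hu := H.hu
  have hw := H.hw
  have hypos := pos hc hyx.symm
  intro n
  induction n with
  | zero =>
    intro t s ht hyt hst hlev hle hsw
    obtain rfl := eq_of_zero hc ht
    rcases hst with rfl | hst
    · exact disj hc hcl H hyu hsw hyx
    · by_cases h1 : G.dist x y = 1
      · exact na hc hB hcl htc H (y := y) (y' := s) h1 (by omega) (by omega) (by omega) hst.symm
      · obtain ⟨q, qs, qy, hq⟩ := htc (G.dist x y) (by omega) x s y hst hlev rfl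
        have e1 : G.dist q u ≤ G.dist y u + 1 := by
          rw [SimpleGraph.dist_comm (u := q), SimpleGraph.dist_comm (u := y)]
          exact lip hc u qy
        have e2 : G.dist q w ≤ G.dist s w + 1 := by
          rw [SimpleGraph.dist_comm (u := q), SimpleGraph.dist_comm (u := s)]
          exact lip hc w qs
        have e3 := tri hc x q u
        have e4 := tri hc x q w
        refine disj hc hcl H (z := q) (by omega) (by omega) ?_
        rintro rfl
        rw [SimpleGraph.dist_self] at hq
        omega
  | succ n ih =>
    intro t s ht hyt hst hlev hle hsw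
    rcases hst with rfl | hst
    · have e1 := tri hc y s w
      have e2 := tri hc x y w
      exact disj hc hcl H (z := y) hyu (by omega) hyx
    · obtain ⟨t', tt', ht'⟩ := parent hc ht
      obtain ⟨q, qs, qt, hq⟩ := htc (G.dist x t) hle x s t hst hlev rfl
      have e1 := tri hc x y t'
      have e2 := lip hc x tt'
      have e3 : G.dist q w ≤ G.dist s w + 1 := by
        rw [SimpleGraph.dist_comm (u := q), SimpleGraph.dist_comm (u := s)]
        exact lip hc w qs
      have e4 := tri hc x q w
      refine ih t' q ht' (by omega) ?_ (by omega) (by omega) (by omega)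
      by_cases hqt : q = t'
      · exact Or.inl hqt
      · right
        exact hcl (G.dist x t) hle x t q t' rfl qt.symm tt' hq (by omega) hqt

/-- S4 -/
theorem s4 (hc : G.Connected) (hB : Bridged G) (hcl : ∀ m : ℕ, m ≤ r → CLn G m)
    (htc : ∀ m : ℕ, m ≤ r → TCn G m) (H : Viol G r x v u w) {y : V} (hyx : y ≠ x)
    (hyu : G.dist x y + G.dist y u = r) : G.dist y w = G.dist y u + 2 := by
  have hv := H.hv
  have hu := H.hu
  have hw := H.hw
  have hypos := pos hc hyx.symm
  have b1 := tri hc x y w
  have b2 := lip hc y H.au
  have b3 := lip hc y H.aw.symm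
  have b4 := tri hc x y v
  by_contra hne
  by_cases h0 : G.dist y w = G.dist y u
  · exact disj hc hcl H (z := y) hyu (by omega) hyx
  · have h1 : G.dist y w = G.dist y u + 1 := by omega
    obtain ⟨t, tv, tw, ht⟩ := htc (G.dist y u + 1) (by omega) y v w H.aw (by omega) h1
    have tu : t ≠ u := by
      rintro rfl
      exact H.na tw
    have aut : G.Adj u t :=
      hcl (G.dist y u + 1) (by omega) y v u t (by omega) H.au tv.symm rfl ht tu.symm
    have dxt : G.dist x t = r := by
      have a1 := tri hc x y t
      have a2 := lip hc x tv.symm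
      omega
    exact cd hc hB hcl htc H hyx hyu (G.dist y t) t w rfl (by omega) (Or.inr tw.symm)
      (by omega) (by omega) (by rw [SimpleGraph.dist_self]; omega)

/-- S5 -/
theorem s5 (hc : G.Connected) (hB : Bridged G) (hcl : ∀ m : ℕ, m ≤ r → CLn G m)
    (htc : ∀ m : ℕ, m ≤ r → TCn G m) (H : Viol G r x v u w) {z : V} (hzx : z ≠ x)
    (hzw : G.dist x z + G.dist z w = r) : ∀ (i : ℕ) (y : V), y ≠ x → G.dist y u = i →
      G.dist x y + i = r → i + G.dist z w + 1 ≤ r → G.dist z y = i + G.dist z w + 2 := by
  have hv := H.hv
  have hu := H.hu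
  have hw := H.hw
  have hzpos := pos hc hzx.symm
  have hzv : G.dist z v = G.dist z w + 1 := by
    have := lip hc z H.aw
    have := tri hc x z v
    omega
  intro i
  induction i using Nat.strong_induction_on with
  | _ i ih =>
    intro y hyx hyu hxy hle
    rcases i with _ | i
    · obtain rfl := eq_of_zero hc hyu
      rw [s4 hc hB hcl htc H.symm hzx hzw]
      omega
    · obtain ⟨y', yy', hy'⟩ := closer hc hyu
      have hlev' : G.dist x y' = G.dist x y + 1 := by
        have a1 := lip hc x yy'.symm
        have a2 := tri hc x y' u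
        omega
      have hyx' : y' ≠ x := by
        rintro rfl
        rw [SimpleGraph.dist_self] at hlev'
        omega
      have hzy' : G.dist z y' = i + G.dist z w + 2 :=
        ih i (by omega) y' hyx' hy' (by omega) (by omega)
      -- the next vertex
      obtain ⟨y'', ay'', ly'', dy'', py''⟩ : ∃ y'', G.Adj y' y'' ∧ G.dist x y'' = G.dist x y + 2 ∧
          G.dist z y'' + 1 = G.dist z y' ∧ (i = 0 ∨ G.dist y'' u + 1 = i) := by
        rcases i with _ | i
        · obtain rfl := eq_of_zero hc hy'
          exact ⟨v, H.au.symm, by omega, by omega, Or.inl rfl⟩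
        · obtain ⟨y'', a1, a2⟩ := closer hc hy'
          have a3 : G.dist x y'' = G.dist x y' + 1 := by
            have b1 := lip hc x a1.symm
            have b2 := tri hc x y'' u
            omega
          have a4 : y'' ≠ x := by
            rintro rfl
            rw [SimpleGraph.dist_self] at a3
            omega
          have a5 := ih i (by omega) y'' a4 a2 (by omega) (by omega)
          exact ⟨y'', a1, by omega, by omega, Or.inr (by omega)⟩
      have nyy : ∀ q : V, G.Adj q y → G.Adj q y'' → G.dist x q = G.dist x y + 1 := by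
        intro q q1 q2
        have := lip hc x q1
        have := lip hc x q2.symm
        omega
      have hny : y'' ≠ y := by
        rintro rfl
        omega
      have hna : ¬ G.Adj y'' y := fun h => by
        have := lip hc x h
        omega
      have c1 := lip hc z yy'
      have c2 := lip hc z yy'.symm
      by_contra hne
      by_cases h0 : G.dist z y + 1 = G.dist z y'
      · refine hna (hcl (G.dist z y') (by omega) z y' y'' y rfl ay'' yy'.symm dy'' h0 hny)
      · have h1 : G.dist z y = G.dist z y' := by omega
        obtain ⟨q, qy, qy', hq⟩ := htc (G.dist z y') (by omega) z y y' yy' h1 rfl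
        have hqne : q ≠ y'' := by
          rintro rfl
          exact hna qy
        have aq : G.Adj q y'' :=
          hcl (G.dist z y') (by omega) z y' q y'' rfl qy'.symm ay'' hq dy'' hqne
        have hlq := nyy q qy aq
        have hqx : q ≠ x := by
          rintro rfl
          rw [SimpleGraph.dist_self] at hlq
          omega
        rcases py'' with hi | hi
        · -- `i = 0`: `y' = u`
          subst hi
          obtain rfl := eq_of_zero hc hy'
          have hvq : G.Adj v q ∧ G.dist x q = r := by
            refine ⟨?_, by omega⟩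
            -- `y''` is at level `r + 1` and adjacent to `u`; use `v` instead
            by_cases hqv : G.Adj v q
            · exact hqv
            · exfalso
              have hvne : q ≠ v := by
                rintro rfl
                omega
              have := hcl (G.dist z y') (by omega) z y' v q rfl H.au.symm qy'.symm (by omega) hq
                hvne.symm
              exact hqv this
          have hqw : q ≠ w := by
            rintro rfl
            have d1 : G.dist y q = 1 := SimpleGraph.dist_eq_one_iff_adj.2 qy.symm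
            exact disj hc hcl H (z := y) (by omega) (by omega) hyx
          by_cases haq : G.Adj q w
          · have d1 : G.dist y q = 1 := SimpleGraph.dist_eq_one_iff_adj.2 qy.symm
            exact cd hc hB hcl htc H hyx (by omega) 1 q w d1 (by omega) (Or.inr haq.symm)
              (by omega) (by omega) (by rw [SimpleGraph.dist_self]; omega)
          · have H' : Viol G r x v q w := ⟨hv, hvq.1, H.aw, hvq.2, hw, hqw, haq⟩
            have := s4 hc hB hcl htc H'.symm hzx hzw
            omega
        · have f1 : G.dist q u ≤ G.dist y'' u + 1 := by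
            rw [SimpleGraph.dist_comm (u := q), SimpleGraph.dist_comm (u := y'')]
            exact lip hc u aq
          have f2 := tri hc x q u
          have f3 := ih i (by omega) q hqx (by omega) (by omega) (by omega)
          omega

/-- S6 -/
theorem s6 (hc : G.Connected) (hB : Bridged G) (hcl : ∀ m : ℕ, m ≤ r → CLn G m)
    (htc : ∀ m : ℕ, m ≤ r → TCn G m) (H : Viol G r x v u w) {z : V} (hzx : z ≠ x)
    (hzw : G.dist x z + G.dist z w = r) : ∀ (a : ℕ) (y : V), 1 ≤ a → G.dist x y = a →
      a + G.dist y u = r → a + G.dist x z ≤ r + 1 → G.dist z y = a + G.dist x z := by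
  have hv := H.hv
  have hu := H.hu
  have hw := H.hw
  have hzpos := pos hc hzx.symm
  have hcomm : G.dist z x = G.dist x z := SimpleGraph.dist_comm
  intro a
  induction a using Nat.strong_induction_on with
  | _ a ih =>
    intro y ha hxy hyu hle
    have hyx : y ≠ x := by
      rintro rfl
      rw [SimpleGraph.dist_self] at hxy
      omega
    by_cases ha1 : a = 1
    · subst ha1
      have hadj : G.Adj x y := SimpleGraph.dist_eq_one_iff_adj.1 hxy
      have c1 := lip hc z hadj
      have c2 := lip hc z hadj.symm
      by_contra hne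
      by_cases h0 : G.dist z y + 1 = G.dist x z
      · have d1 := tri hc y z w
        have d2 := tri hc x y w
        have d3 : G.dist y z = G.dist z y := SimpleGraph.dist_comm
        exact disj hc hcl H (z := y) (by omega) (by omega) hyx
      · have h1 : G.dist z y = G.dist x z := by omega
        obtain ⟨q, qx, qy, hq⟩ := htc (G.dist x z) (by omega) z x y hadj hcomm h1
        have hxq : G.dist x q = 1 := SimpleGraph.dist_eq_one_iff_adj.2 qx.symm
        have d1 := tri hc q z w
        have d2 := tri hc x q w
        have d3 : G.dist q z = G.dist z q := SimpleGraph.dist_comm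
        exact na hc hB hcl htc H (y := y) (y' := q) hxy hxq hyu (by omega) qy.symm
    · obtain ⟨y', yy', hy'⟩ := parent hc (x := x) (y := y) (k := a - 1) (by omega)
      have e1 : G.dist y' u ≤ G.dist y u + 1 := by
        rw [SimpleGraph.dist_comm (u := y'), SimpleGraph.dist_comm (u := y)]
        exact lip hc u yy'.symm
      have e2 := tri hc x y' u
      have hzy' := ih (a - 1) (by omega) y' (by omega) hy' (by omega) (by omega)
      obtain ⟨y'', ay'', ly'', dy''⟩ : ∃ y'', G.Adj y' y'' ∧ G.dist x y'' + 2 = a ∧
          G.dist z y'' + 1 = G.dist z y' := by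
        by_cases ha2 : a = 2
        · refine ⟨x, ?_, ?_, ?_⟩
          · exact (SimpleGraph.dist_eq_one_iff_adj.1 (by omega)).symm
          · rw [SimpleGraph.dist_self]
            omega
          · omega
        · obtain ⟨y'', a1, a2⟩ := parent hc (x := x) (y := y') (k := a - 2) (by omega)
          have f1 : G.dist y'' u ≤ G.dist y' u + 1 := by
            rw [SimpleGraph.dist_comm (u := y''), SimpleGraph.dist_comm (u := y')]
            exact lip hc u a1.symm
          have f2 := tri hc x y'' u
          have f3 := ih (a - 2) (by omega) y'' (by omega) a2 (by omega) (by omega)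
          exact ⟨y'', a1, by omega, by omega⟩
      have hny : y'' ≠ y := by
        rintro rfl
        omega
      have hna : ¬ G.Adj y'' y := fun h => by
        have := lip hc x h.symm
        omega
      have c1 := lip hc z yy'
      have c2 := lip hc z yy'.symm
      by_contra hne
      by_cases h0 : G.dist z y + 1 = G.dist z y'
      · exact hna (hcl (G.dist z y') (by omega) z y' y'' y rfl ay'' yy'.symm dy'' h0 hny)
      · have h1 : G.dist z y = G.dist z y' := by omega
        obtain ⟨q, qy, qy', hq⟩ := htc (G.dist z y') (by omega) z y y' yy' h1 rfl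
        have hqne : q ≠ y'' := by
          rintro rfl
          exact hna qy
        have aq : G.Adj q y'' :=
          hcl (G.dist z y') (by omega) z y' q y'' rfl qy'.symm ay'' hq dy'' hqne
        have hlq : G.dist x q = a - 1 := by
          have := lip hc x qy.symm
          have := lip hc x aq
          omega
        have f1 : G.dist q u ≤ G.dist y u + 1 := by
          rw [SimpleGraph.dist_comm (u := q), SimpleGraph.dist_comm (u := y)]
          exact lip hc u qy
        have f2 := tri hc x q u
        have f3 := ih (a - 1) (by omega) q (by omega) hlq (by omega) (by omega)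
        omega

end

/-- geodesics -/
theorem geo (hc : G.Connected) (x u : V) (r : ℕ) (h : G.dist x u = r) :
    ∃ g : ℕ → V, g 0 = x ∧ g r = u ∧ (∀ m, m < r → G.Adj (g m) (g (m + 1))) := by
  obtain ⟨p, hp⟩ := hc.exists_walk_length_eq_dist x u
  refine ⟨p.getVert, p.getVert_zero, ?_, ?_⟩
  · rw [← h, ← hp]
    exact p.getVert_length
  · intro m hm
    exact p.adj_getVert_succ (by omega)

theorem walk_le (hc : G.Connected) {g : ℕ → V} {r : ℕ} (h : ∀ m, m < r → G.Adj (g m) (g (m + 1)))
    (m : ℕ) : ∀ k, m + k ≤ r → G.dist (g m) (g (m + k)) ≤ k := by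
  intro k
  induction k with
  | zero =>
    intro _
    simp
  | succ k ih =>
    intro hk
    have h1 := ih (by omega)
    have h2 := lip hc (g m) (h (m + k) (by omega)).symm
    rw [← add_assoc]
    omega

end ClStep

open ClStep in
/-- Paper /team-store/h90_sys_paper.md, section 4, steps S1 to S7. -/
theorem cl_step (G : SimpleGraph V) (hc : G.Connected) (hB : Bridged G) (r : ℕ)
    (hcl : ∀ m : ℕ, m ≤ r → CLn G m) (htc : ∀ m : ℕ, m ≤ r → TCn G m) : CLn G (r + 1) := by
  intro x v u w hv au aw hu hw hne
  by_contra hna
  have H : Viol G r x v u w := ⟨hv, au, aw, by omega, by omega, hne, hna⟩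
  have hu' := H.hu
  have hw' := H.hw
  have hr := H.one_le hc
  obtain ⟨a, a0, ar, aadj⟩ := geo hc x u r H.hu
  obtain ⟨b, b0, br, badj⟩ := geo hc x w r H.hw
  -- the geodesics continued to `v`
  have key : ∀ (g : ℕ → V) (s : V), g 0 = x → g r = s → G.Adj v s → G.dist x s = r →
      (∀ m, m < r → G.Adj (g m) (g (m + 1))) → ∀ i j, i ≤ j → j ≤ r + 1 →
      G.dist (if i = r + 1 then v else g i) (if j = r + 1 then v else g j) = j - i := by
    intro g s g0 gr avs hs gadj i j hij hj
    set g' : ℕ → V := fun m => if m = r + 1 then v else g m with hg'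
    have gadj' : ∀ m, m < r + 1 → G.Adj (g' m) (g' (m + 1)) := by
      intro m hm
      simp only [hg']
      rw [if_neg (by omega)]
      by_cases h1 : m = r
      · subst h1
        rw [if_pos rfl, gr]
        exact avs.symm
      · rw [if_neg (by omega)]
        exact gadj m (by omega)
    have h0 : g' 0 = x := by
      simp only [hg']
      rw [if_neg (by omega), g0]
    have h1 : g' (r + 1) = v := by
      simp only [hg']
      rw [if_pos trivial]
    have e1 := walk_le hc gadj' 0 i (by omega)
    have e2 := walk_le hc gadj' i (j - i) (by omega)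
    have e3 := walk_le hc gadj' j (r + 1 - j) (by omega)
    rw [zero_add, h0] at e1
    rw [show i + (j - i) = j by omega] at e2
    rw [show j + (r + 1 - j) = r + 1 by omega, h1] at e3
    have e4 := tri hc x (g' i) v
    have e5 := tri hc (g' i) (g' j) v
    change G.dist (g' i) (g' j) = j - i
    omega
  have keyA := key a u a0 ar au H.hu aadj
  have keyB := key b w b0 br aw H.hw badj
  have lev : ∀ (g : ℕ → V), g 0 = x → (∀ i j, i ≤ j → j ≤ r + 1 →
      G.dist (if i = r + 1 then v else g i) (if j = r + 1 then v else g j) = j - i) →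
      ∀ m, m ≤ r → G.dist x (g m) = m ∧ G.dist (g m) (g r) = r - m := by
    intro g g0 hk m hm
    have e1 := hk 0 m (by omega) (by omega)
    have e2 := hk m r (by omega) (by omega)
    rw [if_neg (by omega), if_neg (by omega), g0] at e1
    rw [if_neg (by omega), if_neg (by omega)] at e2
    exact ⟨by omega, e2⟩
  have levA := lev a a0 keyA
  have levB := lev b b0 keyB
  rw [ar] at levA
  rw [br] at levB
  have cross : ∀ i j, 1 ≤ i → i ≤ r → 1 ≤ j → j ≤ r →
      G.dist (a i) (b j) = min (i + j) (2 * r + 2 - i - j) := by
    intro i j hi hir hj hjr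
    obtain ⟨p1, p2⟩ := levA i hir
    obtain ⟨q1, q2⟩ := levB j hjr
    have nx : ∀ z : V, ∀ k, 1 ≤ k → G.dist x z = k → z ≠ x := by
      rintro z k hk hz rfl
      rw [SimpleGraph.dist_self] at hz
      omega
    rw [SimpleGraph.dist_comm]
    by_cases hs : i + j ≤ r + 1
    · rw [s6 hc hB hcl htc H (nx _ j hj q1) (by omega) i (a i) hi p1 (by omega) (by omega)]
      omega
    · rw [s5 hc hB hcl htc H (nx _ j hj q1) (by omega) (r - i) (a i) (nx _ i hi p1) p2 (by omega)
        (by omega)]
      omega
  refine hB (2 * r + 2) (by omega) (fun k : Fin (2 * r + 2) =>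
    if k.val ≤ r + 1 then (if k.val = r + 1 then v else a k.val) else b (2 * r + 2 - k.val)) ?_
  rintro ⟨m, hi⟩ ⟨n, hj⟩ hij
  have hij' : m ≤ n := hij
  change G.dist (if m ≤ r + 1 then (if m = r + 1 then v else a m) else b (2 * r + 2 - m))
    (if n ≤ r + 1 then (if n = r + 1 then v else a n) else b (2 * r + 2 - n)) =
    min (n - m) (2 * r + 2 - (n - m))
  by_cases h1 : n ≤ r + 1
  · rw [if_pos h1, if_pos (by omega), keyA m n hij' h1]
    omega
  · rw [if_neg h1]
    by_cases h2 : m ≤ r + 1
    · rw [if_pos h2]
      by_cases h3 : m = r + 1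
      · rw [if_pos h3]
        have e1 := keyB (2 * r + 2 - n) (r + 1) (by omega) le_rfl
        rw [if_neg (by omega), if_pos rfl] at e1
        rw [SimpleGraph.dist_comm, e1]
        omega
      · rw [if_neg h3]
        by_cases h4 : m = 0
        · subst h4
          rw [a0, (levB _ (by omega)).1]
          omega
        · rw [cross m (2 * r + 2 - n) (by omega) (by omega) (by omega) (by omega)]
          omega
    · rw [if_neg h2]
      have e1 := keyB (2 * r + 2 - n) (2 * r + 2 - m) (by omega) (by omega)
      rw [if_neg (by omega), if_neg (by omega)] at e1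
      rw [SimpleGraph.dist_comm, e1]
      omega

end Pool.H90SY
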