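import Pool.Agent.H90.SY.Inst
import Pool.Agent.H90.SY.Brick

set_option autoImplicit false

namespace Pool.H90SY

universe u

variable {V : Type u} {G : SimpleGraph V} {x0 : V}

theorem exists_closer (hc : G.Connected) (x v : V) (hv : v ≠ x) :
    ∃ u, G.Adj v u ∧ G.dist x u + 1 = G.dist x v := by
  obtain ⟨w, hw⟩ := hc.exists_walk_length_eq_dist v x
  cases w with
  | nil => exact absurd rfl hv
  | @cons _ u _ hadj p =>
    refine ⟨u, hadj, ?_⟩
    rw [SimpleGraph.Walk.length_cons] at hw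
    have h2 : G.dist u x ≤ p.length := SimpleGraph.dist_le p
    have h3 : G.dist v x ≤ 1 + G.dist u x := by
      have := hc.dist_triangle (u := v) (v := u) (w := x)
      rw [SimpleGraph.dist_eq_one_iff_adj.mpr hadj] at this
      exact this
    rw [SimpleGraph.dist_comm (u := x) (v := u), SimpleGraph.dist_comm (u := x) (v := v)]
    omega

theorem fill (hc : G.Connected) : ∀ (n : ℕ) (v w : V), G.dist v w = n →
    Relation.ReflTransGen (fun x y => G.Adj x y ∧ G.dist v y ≤ n) v w := by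
  intro n
  induction n with
  | zero =>
    intro v w h
    have e : v = w := (hc.dist_eq_zero_iff).mp h
    rw [e]
  | succ n ih =>
    intro v w h
    have hne : w ≠ v := by
      rintro rfl
      simp at h
    obtain ⟨u, hu, hd⟩ := exists_closer hc v w hne
    have h1 := ih v u (by omega)
    refine Relation.ReflTransGen.tail (b := u) ?_ ⟨hu.symm, by omega⟩
    have hm : (fun x y => G.Adj x y ∧ G.dist v y ≤ n) ≤ (fun x y => G.Adj x y ∧ G.dist v y ≤ n + 1) :=
      fun x y hxy => ⟨hxy.1, by have := hxy.2; omega⟩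
    exact Relation.ReflTransGen.mono hm _ _ h1

theorem lev_adj (L : Lay G x0) {v w : V} (h : G.Adj v w) :
    G.dist x0 v ≤ G.dist x0 w + 1 := by
  have h1 := L.conn.dist_triangle (u := x0) (v := w) (w := v)
  have h2 : G.dist w v = 1 := SimpleGraph.dist_eq_one_iff_adj.mpr h.symm
  omega

theorem lip_adj (L : Lay G x0) {v w : V} (h : G.Adj v w) : fh G x0 v - fh G x0 w ≤ 2 := by
  have par : ∀ v w : V, Par G x0 v w →
      fh G x0 v - fh G x0 w ≤ 2 ∧ fh G x0 w - fh G x0 v ≤ 2 := by
    intro v w hp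
    have hv := par_ne _ _ hp
    by_cases hq : q1 G x0 v = q2 G x0 v
    · have h1 := fh_one L hv hq
      rcases par_cases L v _ hp with e | e
      · rw [← e] at h1; omega
      · rw [hq, ← e] at h1; omega
    · have hfq := flat_q L hv hq
      have h1 := fh_two L hv hq
      rcases par_cases L v _ hp with e | e
      · have h2 := fh_step L _ _ _ rfl hfq
        rw [← e] at h2 h1
        omega
      · have h2 := fh_step L _ _ _ rfl hfq.symm
        rw [cp_comm L hfq.symm, ← e] at h2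
        rw [← e] at h1
        omega
  have h1 := lev_adj L h
  have h2 := lev_adj L h.symm
  rcases lt_trichotomy (G.dist x0 v) (G.dist x0 w) with h3 | h3 | h3
  · exact (par w v ⟨h.symm, by omega⟩).2
  · have hf : Flat G x0 v w := ⟨h, h3⟩
    have h4 := fh_step L _ _ _ rfl hf
    have h5 := fh_step L _ _ _ rfl hf.symm
    rw [cp_comm L hf.symm] at h5
    omega
  · exact (par v w ⟨h, by omega⟩).1

theorem lip_dist (L : Lay G x0) : ∀ (n : ℕ) (v w : V), G.dist v w = n →
    fh G x0 v - fh G x0 w ≤ 2 * (n : ℤ) := by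
  intro n
  induction n with
  | zero =>
    intro v w h
    have e : v = w := (L.conn.dist_eq_zero_iff).mp h
    rw [e]
    simp
  | succ n ih =>
    intro v w h
    have hne : w ≠ v := by
      rintro rfl
      simp at h
    obtain ⟨u, hu, hd⟩ := exists_closer L.conn v w hne
    have h1 := ih v u (by omega)
    have h2 := lip_adj L hu.symm
    push_cast
    omega

theorem iter_adj (L : Lay G x0) (k : ℕ) : ∀ s t : V × V, (s = t ∨ gadj G x0 s t) →
    (pj G x0)^[k] s = (pj G x0)^[k] t ∨ gadj G x0 ((pj G x0)^[k] s) ((pj G x0)^[k] t) := by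
  induction k with
  | zero =>
    intro s t h
    exact h
  | succ k ih =>
    intro s t h
    rw [Function.iterate_succ_apply, Function.iterate_succ_apply]
    apply ih
    rcases h with h | h
    · left; rw [h]
    · exact (sys L).weak h

theorem iter_ht (L : Lay G x0) (k : ℕ) : ∀ s : V × V,
    hgt G x0 s - k ≤ hgt G x0 ((pj G x0)^[k] s) ∧ hgt G x0 ((pj G x0)^[k] s) ≤ hgt G x0 s := by
  induction k with
  | zero =>
    intro s
    simp
  | succ k ih =>
    intro s
    rw [Function.iterate_succ_apply]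
    have h1 := ih (pj G x0 s)
    have h2 : hgt G x0 (pj G x0 s) = hgt G x0 s ∨ hgt G x0 (pj G x0 s) = hgt G x0 s - 1 := by
      rcases (sys L).drop s with h | h
      · exact Or.inl h
      · exact Or.inr h.1
    push_cast
    omega

/-- projection of a vertex to level `n` -/
noncomputable def Pr (G : SimpleGraph V) (x0 : V) (n : ℕ) (v : V) : V × V :=
  (pj G x0)^[G.dist x0 v - n] (v, v)

theorem wk_one (L : Lay G x0) {a M : ℤ} {s t : V × V} (h : s = t ∨ gadj G x0 s t)
    (h1 : a ≤ hgt G x0 t) (h2 : hgt G x0 t ≤ M) : Wk (sys L) a M s t := by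
  rcases h with h | h
  · rw [h]
    exact Relation.ReflTransGen.refl
  · exact Relation.ReflTransGen.single ⟨h, h1, h2⟩

theorem pr_ht (L : Lay G x0) (n K : ℕ) (A B : ℤ) (v : V) (h2 : G.dist x0 v ≤ n + K)
    (h3 : A ≤ fh G x0 v) (h4 : fh G x0 v ≤ B) :
    A - K ≤ hgt G x0 (Pr G x0 n v) ∧ hgt G x0 (Pr G x0 n v) ≤ B := by
  have := iter_ht L (G.dist x0 v - n) (v, v)
  rw [hgt_v] at this
  unfold Pr
  omega

theorem pr_adj (L : Lay G x0) (n K : ℕ) (A B : ℤ) (v w : V) (h : G.Adj v w)
    (hv1 : n ≤ G.dist x0 v)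
    (hw1 : n ≤ G.dist x0 w) (hw2 : G.dist x0 w ≤ n + K)
    (hv3 : A ≤ fh G x0 v) (hv4 : fh G x0 v ≤ B) (hw3 : A ≤ fh G x0 w) (hw4 : fh G x0 w ≤ B) :
    Wk (sys L) (A - 1 - K) (B + 1) (Pr G x0 n v) (Pr G x0 n w) := by
  have hwt := pr_ht L n K A B w hw2 hw3 hw4
  have par : ∀ v w : V, Par G x0 v w → n ≤ G.dist x0 w →
      Pr G x0 n v = Pr G x0 n w ∨ gadj G x0 (Pr G x0 n v) (Pr G x0 n w) := by
    intro v w hp hn
    have hv := par_ne _ _ hp
    have e : G.dist x0 v - n = (G.dist x0 w - n) + 1 := by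
      have := hp.2
      omega
    unfold Pr
    rw [e, Function.iterate_succ_apply]
    apply iter_adj L
    rw [pj_v]
    by_cases hq : q1 G x0 v = q2 G x0 v
    · left
      rcases par_cases L v _ hp with e | e
      · rw [← hq, ← e]
      · rw [hq, ← e]
    · right
      have hfq := flat_q L hv hq
      right
      rcases par_cases L v _ hp with e | e
      · refine ⟨q1 G x0 v, q2 G x0 v, hfq, ?_, Or.inl rfl⟩
        rw [e]
      · refine ⟨q2 G x0 v, q1 G x0 v, hfq.symm, ?_, Or.inr rfl⟩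
        rw [e]
  have h1 := lev_adj L h
  have h2 := lev_adj L h.symm
  rcases lt_trichotomy (G.dist x0 v) (G.dist x0 w) with h3 | h3 | h3
  · have h4 := par w v ⟨h.symm, by omega⟩ hv1
    apply wk_one L _ (by omega) (by omega)
    rcases h4 with e | e
    · exact Or.inl e.symm
    · exact Or.inr ((sys L).symm e)
  · have hf : Flat G x0 v w := ⟨h, h3⟩
    have h5 := fh_step L _ _ _ rfl hf
    have ee : hgt G x0 (v, w) = fh G x0 (cp G x0 v w) := hgt_e hf.ne
    have h6 := iter_ht L (G.dist x0 v - n) (v, w)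
    have ew : G.dist x0 w - n = G.dist x0 v - n := by omega
    have s1 : gadj G x0 (v, v) (v, w) := Or.inl ⟨v, w, hf, rfl, Or.inl rfl⟩
    have s2 : gadj G x0 (v, w) (w, w) := Or.inr ⟨w, v, hf.symm, rfl, Or.inr rfl⟩
    have t1 := iter_adj L (G.dist x0 v - n) _ _ (Or.inr s1)
    have t2 := iter_adj L (G.dist x0 v - n) _ _ (Or.inr s2)
    have w1 : Wk (sys L) (A - 1 - K) (B + 1) (Pr G x0 n v)
        ((pj G x0)^[G.dist x0 v - n] (v, w)) := by
      apply wk_one L t1
      · omega
      · omega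
    have w2 : Wk (sys L) (A - 1 - K) (B + 1) ((pj G x0)^[G.dist x0 v - n] (v, w))
        (Pr G x0 n w) := by
      apply wk_one L
      · unfold Pr
        rw [ew]
        exact t2
      · omega
      · omega
    exact Relation.ReflTransGen.trans w1 w2
  · have h4 := par v w ⟨h, by omega⟩ hw1
    exact wk_one L h4 (by omega) (by omega)

theorem pr_chain (L : Lay G x0) (n K : ℕ) (A B : ℤ) (v w : V)
    (hv1 : n ≤ G.dist x0 v) (hv2 : G.dist x0 v ≤ n + K)
    (hv3 : A ≤ fh G x0 v) (hv4 : fh G x0 v ≤ B)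
    (h : Relation.ReflTransGen (fun x y => G.Adj x y ∧ n ≤ G.dist x0 y ∧ G.dist x0 y ≤ n + K ∧
      A ≤ fh G x0 y ∧ fh G x0 y ≤ B) v w) :
    (n ≤ G.dist x0 w ∧ G.dist x0 w ≤ n + K ∧ A ≤ fh G x0 w ∧ fh G x0 w ≤ B) ∧
    Wk (sys L) (A - 1 - K) (B + 1) (Pr G x0 n v) (Pr G x0 n w) := by
  induction h with
  | refl => exact ⟨⟨hv1, hv2, hv3, hv4⟩, Relation.ReflTransGen.refl⟩
  | @tail y z _ hyz ih =>
    obtain ⟨⟨a1, a2, a3, a4⟩, hw⟩ := ih
    obtain ⟨hadj, b1, b2, b3, b4⟩ := hyz
    exact ⟨⟨b1, b2, b3, b4⟩, hw.trans (pr_adj L n K A B y z hadj a1 b1 b2 a3 a4 b3 b4)⟩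

theorem near (L : Lay G x0) (m l R : ℕ) (a : ℤ) (v w : V)
    (hv : Win (G.dist x0) (fh G x0) m l a v)
    (h : Relation.ReflTransGen
      (fun x y => G.dist x y ≤ R ∧ Win (G.dist x0) (fh G x0) m l a y) v w) :
    G.dist v w ≤ 10 * l + 28 * R + 8 := by
  obtain ⟨v1, v2, v3, v4⟩ := hv
  -- fill in
  have hfill : Relation.ReflTransGen (fun x y => G.Adj x y ∧ m - R ≤ G.dist x0 y ∧
      G.dist x0 y ≤ (m - R) + (l + 2 * R) ∧ a - 2 * R ≤ fh G x0 y ∧
      fh G x0 y ≤ a + l + 2 * R) v w ∧ Win (G.dist x0) (fh G x0) m l a w := by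
    induction h with
    | refl => exact ⟨Relation.ReflTransGen.refl, v1, v2, v3, v4⟩
    | @tail y z _ hyz ih =>
      obtain ⟨ih1, y1, y2, y3, y4⟩ := ih
      obtain ⟨hd, z1, z2, z3, z4⟩ := hyz
      refine ⟨ih1.trans ?_, z1, z2, z3, z4⟩
      refine Relation.ReflTransGen.mono ?_ _ _ (fill L.conn _ y z rfl)
      intro p q hpq
      obtain ⟨hadj, hq⟩ := hpq
      have t1 := L.conn.dist_triangle (u := x0) (v := y) (w := q)
      have t2 := L.conn.dist_triangle (u := x0) (v := q) (w := y)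
      rw [SimpleGraph.dist_comm (u := q) (v := y)] at t2
      have t3 := lip_dist L _ y q rfl
      have t4 := lip_dist L _ q y rfl
      rw [SimpleGraph.dist_comm (u := q) (v := y)] at t4
      refine ⟨hadj, by omega, by omega, by omega, by omega⟩
  obtain ⟨hfill, w1, w2, w3, w4⟩ := hfill
  obtain ⟨_, hwk⟩ := pr_chain L (m - R) (l + 2 * R) (a - 2 * R) (a + l + 2 * R) v w
    (by omega) (by omega) (by omega) (by omega) hfill
  have hv5 := pr_ht L (m - R) (l + 2 * R) (a - 2 * R) (a + l + 2 * R) v (by omega) (by omega)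
    (by omega)
  push_cast at hwk hv5
  have e1 : a + l + 2 * R + 1 = (a - 2 * R - 1 - (l + 2 * R)) + ((2 * l + 6 * R + 2 : ℕ) : ℤ) := by
    push_cast
    ring
  rw [e1] at hwk
  have h9 := light_dist L (2 * l + 6 * R + 2) (a - 2 * R - 1 - (l + 2 * R)) _ _
    (val_iter L _ (v, v) (Or.inl rfl)).1 (val_iter L _ (w, w) (Or.inl rfl)).1
    (by
      have := hv5.1
      unfold Pr at this
      omega)
    (by
      have := hv5.2
      unfold Pr at this
      push_cast
      omega) hwk
  have h10 := (val_iter L (G.dist x0 v - (m - R)) (v, v) (Or.inl rfl)).2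
  have h11 := (val_iter L (G.dist x0 w - (m - R)) (w, w) (Or.inl rfl)).2
  have h12 := L.conn.dist_triangle (u := v)
    (v := ((pj G x0)^[G.dist x0 v - (m - R)] (v, v)).1)
    (w := ((pj G x0)^[G.dist x0 w - (m - R)] (w, w)).1)
  have h13 := L.conn.dist_triangle (u := v)
    (v := ((pj G x0)^[G.dist x0 w - (m - R)] (w, w)).1) (w := w)
  have h14 : G.dist ((pj G x0)^[G.dist x0 w - (m - R)] (w, w)).1 w =
    G.dist w ((pj G x0)^[G.dist x0 w - (m - R)] (w, w)).1 := SimpleGraph.dist_comm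
  simp only at h10 h11
  omega

theorem lay_cover (L : Lay G x0) : ∀ R : ℕ, 1 ≤ R → CoverAt G.dist 2 R (76 * R) := by
  apply brick_cover G.dist (G.dist x0) (fh G x0)
  · intro v w
    exact SimpleGraph.dist_comm
  · intro v w
    have := L.conn.dist_triangle (u := x0) (v := w) (w := v)
    rw [SimpleGraph.dist_comm (u := w) (v := v)] at this
    omega
  · intro v w
    exact lip_dist L _ v w rfl
  · intro m l R a v w hv h
    exact near L m l R a v w hv h

end Pool.H90SY
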