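import Mathlib

set_option autoImplicit false

namespace Pool.H90SY

universe u

/-- An isometric cycle of length `N`: the distance in `G` between two of its vertices is the
distance along the cycle. -/
def IsoCyc {V : Type u} (G : SimpleGraph V) (N : ℕ) (f : Fin N → V) : Prop :=
  ∀ i j : Fin N, i ≤ j → G.dist (f i) (f j) = min (j.val - i.val) (N - (j.val - i.val))

/-- Bridged graphs: no isometric cycle of length at least four. -/
def Bridged {V : Type u} (G : SimpleGraph V) : Prop :=
  ∀ N : ℕ, 4 ≤ N → ∀ f : Fin N → V, ¬ IsoCyc G N f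

/-- `X` (with distance function `d`) has a cover in `n + 1` colours by sets of diameter at most `D`,
two different sets of the same colour being more than `R` apart. -/
def CoverAt {X : Type u} (d : X → X → ℕ) (n R D : ℕ) : Prop :=
  ∃ (𝒰 : Set (Set X)) (c : Set X → Fin (n + 1)),
    (∀ x : X, ∃ U ∈ 𝒰, x ∈ U) ∧
    (∀ U ∈ 𝒰, ∀ x ∈ U, ∀ y ∈ U, d x y ≤ D) ∧
    (∀ U ∈ 𝒰, ∀ W ∈ 𝒰, U ≠ W → c U = c W → ∀ x ∈ U, ∀ y ∈ W, R < d x y)

/-- The Cayley graph of a group with respect to a set `S`. -/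
def cay {Γ : Type u} [Group Γ] (S : Set Γ) : SimpleGraph Γ :=
  SimpleGraph.fromRel (fun g h => g⁻¹ * h ∈ S)

/-- (CL) at distance `n`, for all base points. -/
def CLn {V : Type u} (G : SimpleGraph V) (n : ℕ) : Prop :=
  ∀ x v u w : V, G.dist x v = n → G.Adj v u → G.Adj v w → G.dist x u + 1 = n →
    G.dist x w + 1 = n → u ≠ w → G.Adj u w

/-- (TC) at distance `n`, for all base points. -/
def TCn {V : Type u} (G : SimpleGraph V) (n : ℕ) : Prop :=
  ∀ x v w : V, G.Adj v w → G.dist x v = n → G.dist x w = n →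
    ∃ p : V, G.Adj p v ∧ G.Adj p w ∧ G.dist x p + 1 = n

end Pool.H90SY
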