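import Pool.Agent.H90.SY.Defs

set_option autoImplicit false

namespace Pool.H90SY

universe u

private lemma dist_map_le {V W : Type u} {G : SimpleGraph V} {H : SimpleGraph W} (f : G →g H)
    (v w : V) (h : G.Reachable v w) : H.dist (f v) (f w) ≤ G.dist v w := by
  obtain ⟨p, hp⟩ := h.exists_walk_length_eq_dist
  rw [← hp, ← SimpleGraph.Walk.length_map f p]
  exact SimpleGraph.dist_le _

private lemma dist_smul {Γ V : Type u} [Group Γ] [MulAction Γ V] (G : SimpleGraph V)
    (hact : ∀ (g : Γ) (v w : V), G.Adj v w → G.Adj (g • v) (g • w)) (hc : G.Connected) (g : Γ)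
    (v w : V) : G.dist (g • v) (g • w) = G.dist v w := by
  have key : ∀ (g : Γ) (v w : V), G.dist (g • v) (g • w) ≤ G.dist v w := fun g v w =>
    dist_map_le (⟨fun v => g • v, fun {a b} h => hact g a b h⟩ : G →g G) v w (hc.preconnected v w)
  refine le_antisymm (key g v w) ?_
  have h := key g⁻¹ (g • v) (g • w)
  rwa [inv_smul_smul, inv_smul_smul] at h

/-- left translation -/
private def transl {Γ : Type u} [Group Γ] (S : Set Γ) (k : Γ) : cay S →g cay S :=
  ⟨fun g => k * g, fun {a b} h => by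
    rw [cay, SimpleGraph.fromRel_adj] at h ⊢
    refine ⟨fun he => h.1 (mul_left_cancel he), ?_⟩
    have e : ∀ a b : Γ, (k * a)⁻¹ * (k * b) = a⁻¹ * b := fun a b => by group
    rw [e, e]
    exact h.2⟩

private lemma cay_reachable {Γ : Type u} [Group Γ] (S : Set Γ) (hgen : Subgroup.closure S = ⊤)
    (g h : Γ) : (cay S).Reachable g h := by
  have h1 : ∀ g : Γ, (cay S).Reachable 1 g := by
    intro g
    have hg : g ∈ Subgroup.closure S := by
      rw [hgen]
      exact Subgroup.mem_top g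
    induction hg using Subgroup.closure_induction with
    | mem s hs =>
      by_cases h1 : (1 : Γ) = s
      · rw [← h1]
      · refine SimpleGraph.Adj.reachable ?_
        rw [cay, SimpleGraph.fromRel_adj]
        refine ⟨h1, Or.inl ?_⟩
        rwa [inv_one, one_mul]
    | one => exact SimpleGraph.Reachable.refl _
    | mul x y _ _ hx hy =>
      have h2 := hy.map (transl S x)
      have h3 : (cay S).Reachable x (x * y) := by
        simpa [transl] using h2
      exact hx.trans h3
    | inv x _ hx =>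
      have h2 := hx.map (transl S x⁻¹)
      have h3 : (cay S).Reachable x⁻¹ 1 := by
        simpa [transl] using h2
      exact h3.symm
  exact (h1 g).symm.trans (h1 h)

private lemma walk_bound {Γ V : Type u} [Group Γ] [MulAction Γ V] (G : SimpleGraph V)
    (hact : ∀ (g : Γ) (v w : V), G.Adj v w → G.Adj (g • v) (g • w)) (hc : G.Connected)
    (x0 : V) (S : Set Γ) (L : ℕ) (hL : ∀ s ∈ S, G.dist x0 (s • x0) ≤ L) {g h : Γ}
    (p : (cay S).Walk g h) : G.dist (g • x0) (h • x0) ≤ L * p.length := by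
  induction p with
  | nil => simp
  | @cons a b e hadj p ih =>
    rw [SimpleGraph.Walk.length_cons]
    have h1 : G.dist (a • x0) (b • x0) ≤ L := by
      rw [cay, SimpleGraph.fromRel_adj] at hadj
      rcases hadj.2 with h | h
      · have h2 := hL _ h
        rw [← dist_smul G hact hc a, smul_smul, mul_inv_cancel_left] at h2
        exact h2
      · have h2 := hL _ h
        rw [← dist_smul G hact hc b, smul_smul, mul_inv_cancel_left] at h2
        rw [SimpleGraph.dist_comm]
        exact h2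
    have h2 : G.dist (a • x0) (e • x0) ≤ G.dist (a • x0) (b • x0) + G.dist (b • x0) (e • x0) :=
      hc.dist_triangle
    calc G.dist (a • x0) (e • x0) ≤ L + L * p.length := h2.trans (Nat.add_le_add h1 ih)
      _ = L * (p.length + 1) := by ring

/-- Covers pull back along the orbit map of a metrically proper action. -/
theorem grp_cover {Γ V : Type u} [Group Γ] [MulAction Γ V] (G : SimpleGraph V)
    (hact : ∀ (g : Γ) (v w : V), G.Adj v w → G.Adj (g • v) (g • w)) (hc : G.Connected)
    (x0 : V) (S : Set Γ) (hS : S.Finite) (hgen : Subgroup.closure S = ⊤)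
    (hprop : ∀ r : ℕ, {g : Γ | G.dist x0 (g • x0) ≤ r}.Finite) (C : ℕ)
    (hN : ∀ R : ℕ, 1 ≤ R → CoverAt G.dist 2 R (C * R)) :
    ∀ R : ℕ, ∃ D : ℕ, CoverAt (cay S).dist 2 R D := by
  classical
  intro R
  -- constants
  obtain ⟨L, hL⟩ : ∃ L : ℕ, ∀ s ∈ S, G.dist x0 (s • x0) ≤ L := by
    have hf := hS.image fun s => G.dist x0 (s • x0)
    obtain ⟨L, hL⟩ := hf.bddAbove
    exact ⟨L, fun s hs => hL ⟨s, hs, rfl⟩⟩
  have hwalk := fun {g h : Γ} (p : (cay S).Walk g h) => walk_bound G hact hc x0 S L hL p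
  have hconn := cay_reachable S hgen
  have hR1 : 1 ≤ L * R + 1 := by omega
  obtain ⟨𝒰, c, hcov, hdiam, hsep⟩ := hN (L * R + 1) hR1
  obtain ⟨D, hD⟩ : ∃ D : ℕ, ∀ g : Γ, G.dist x0 (g • x0) ≤ C * (L * R + 1) →
      (cay S).dist 1 g ≤ D := by
    have hf := (hprop (C * (L * R + 1))).image fun g => (cay S).dist 1 g
    obtain ⟨D, hD⟩ := hf.bddAbove
    exact ⟨D, fun g hg => hD ⟨g, hg, rfl⟩⟩
  refine ⟨D, {T | ∃ U ∈ 𝒰, (fun g : Γ => g • x0) ⁻¹' U = T},
    fun T => if h : ∃ U ∈ 𝒰, (fun g : Γ => g • x0) ⁻¹' U = T then c h.choose else 0, ?_, ?_, ?_⟩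
  · intro g
    obtain ⟨U, hU, hgU⟩ := hcov (g • x0)
    exact ⟨_, ⟨U, hU, rfl⟩, hgU⟩
  · rintro T ⟨U, hU, rfl⟩ x hx y hy
    have h1 : G.dist (x • x0) (y • x0) ≤ C * (L * R + 1) := hdiam U hU _ hx _ hy
    have h2 : G.dist x0 ((x⁻¹ * y) • x0) ≤ C * (L * R + 1) := by
      rw [← dist_smul G hact hc x, smul_smul, mul_inv_cancel_left]
      exact h1
    have h3 := dist_map_le (transl S x) 1 (x⁻¹ * y) (hconn _ _)
    have h4 : (cay S).dist x y ≤ (cay S).dist 1 (x⁻¹ * y) := by
      simpa [transl] using h3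
    exact h4.trans (hD _ h2)
  · intro T hT T' hT' hne hcc x hx y hy
    have hT0 : ∃ U ∈ 𝒰, (fun g : Γ => g • x0) ⁻¹' U = T := hT
    have hT0' : ∃ U ∈ 𝒰, (fun g : Γ => g • x0) ⁻¹' U = T' := hT'
    simp only [dif_pos hT0, dif_pos hT0'] at hcc
    have e1 := hT0.choose_spec
    have e2 := hT0'.choose_spec
    have hneU : hT0.choose ≠ hT0'.choose := by
      intro he
      apply hne
      rw [← e1.2, ← e2.2, he]
    have hxU : x • x0 ∈ hT0.choose := by
      have : x ∈ (fun g : Γ => g • x0) ⁻¹' hT0.choose := by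
        rw [e1.2]
        exact hx
      exact this
    have hyU : y • x0 ∈ hT0'.choose := by
      have : y ∈ (fun g : Γ => g • x0) ⁻¹' hT0'.choose := by
        rw [e2.2]
        exact hy
      exact this
    have h1 := hsep _ e1.1 _ e2.1 hneU hcc _ hxU _ hyU
    by_contra hcon
    push Not at hcon
    obtain ⟨p, hp⟩ := (hconn x y).exists_walk_length_eq_dist
    have h2 := hwalk p
    rw [hp] at h2
    have h3 : L * (cay S).dist x y ≤ L * R := Nat.mul_le_mul_left _ hcon
    omega

end Pool.H90SY
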