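import Pool.Agent.H90.SY.Layer

set_option autoImplicit false

namespace Pool.H90SY

universe u

variable {V : Type u}

section

variable (G : SimpleGraph V) (x0 : V)

open Classical in
/-- the bonding map on pairs -/
noncomputable def pj (s : V × V) : V × V :=
  if s.1 = s.2 then (q1 G x0 s.1, q2 G x0 s.1) else (cp G x0 s.1 s.2, cp G x0 s.1 s.2)

open Classical in
/-- the height on pairs -/
noncomputable def hgt (s : V × V) : ℤ :=
  if s.1 = s.2 then fh G x0 s.1 else fh G x0 (cp G x0 s.1 s.2)

/-- `t` is an edge (in one of its two orders) at the vertex `s` -/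
def Inc (s t : V × V) : Prop :=
  ∃ v w : V, Flat G x0 v w ∧ s = (v, v) ∧ (t = (v, w) ∨ t = (w, v))

/-- incidence, symmetrised -/
def gadj (s t : V × V) : Prop := Inc G x0 s t ∨ Inc G x0 t s

end

variable {G : SimpleGraph V} {x0 : V}

theorem pj_v (v : V) : pj G x0 (v, v) = (q1 G x0 v, q2 G x0 v) := by
  unfold pj
  rw [if_pos rfl]

theorem pj_e {v w : V} (h : v ≠ w) : pj G x0 (v, w) = (cp G x0 v w, cp G x0 v w) := by
  unfold pj
  rw [if_neg h]

theorem hgt_v (v : V) : hgt G x0 (v, v) = fh G x0 v := by
  unfold hgt
  rw [if_pos rfl]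

theorem hgt_e {v w : V} (h : v ≠ w) : hgt G x0 (v, w) = fh G x0 (cp G x0 v w) := by
  unfold hgt
  rw [if_neg h]

theorem Flat.ne {v w : V} (h : Flat G x0 v w) : v ≠ w := h.1.ne

/-- the data of an incidence -/
theorem inc_data (L : Lay G x0) {s t : V × V} (h : Inc G x0 s t) :
    ∃ v w : V, Flat G x0 v w ∧ s = (v, v) ∧ (t = (v, w) ∨ t = (w, v)) ∧
      hgt G x0 t = fh G x0 (cp G x0 v w) ∧ pj G x0 t = (cp G x0 v w, cp G x0 v w) := by
  obtain ⟨v, w, hf, hs, ht⟩ := h
  refine ⟨v, w, hf, hs, ht, ?_, ?_⟩
  · rcases ht with h | h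
    · rw [h, hgt_e hf.ne]
    · rw [h, hgt_e (Ne.symm hf.ne), cp_comm L hf]
  · rcases ht with h | h
    · rw [h, pj_e hf.ne]
    · rw [h, pj_e (Ne.symm hf.ne), cp_comm L hf]

theorem inc_weak (L : Lay G x0) {s t : V × V} (h : Inc G x0 s t) :
    pj G x0 s = pj G x0 t ∨ Inc G x0 (pj G x0 t) (pj G x0 s) := by
  obtain ⟨v, w, hf, hs, ht, _, hp⟩ := inc_data L h
  obtain ⟨h1, h2⟩ := cp_par L hf
  have hv := par_ne _ _ h1
  rw [hp, hs, pj_v]
  by_cases hq : q1 G x0 v = q2 G x0 v
  · left
    rcases par_cases L v _ h1 with e | e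
    · rw [← hq, ← e]
    · rw [hq, ← e]
  · right
    have hfq := flat_q L hv hq
    rcases par_cases L v _ h1 with e | e
    · refine ⟨q1 G x0 v, q2 G x0 v, hfq, ?_, Or.inl rfl⟩
      rw [e]
    · refine ⟨q2 G x0 v, q1 G x0 v, hfq.symm, ?_, Or.inr rfl⟩
      rw [e]

theorem inc_step (L : Lay G x0) {s t : V × V} (h : Inc G x0 s t) :
    hgt G x0 t = hgt G x0 s - 1 ∨ hgt G x0 s = hgt G x0 t - 1 := by
  obtain ⟨v, w, hf, hs, ht, hh, _⟩ := inc_data L h
  rw [hh, hs, hgt_v]
  have := fh_step L _ v w rfl hf
  omega

/-- the inverse system of a layered graph -/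
noncomputable def sys (L : Lay G x0) : Sys (V × V) where
  adj := gadj G x0
  pr := pj G x0
  ht := hgt G x0
  symm := by
    intro s t h
    exact h.symm
  weak := by
    intro s t h
    rcases h with h | h
    · rcases inc_weak L h with e | e
      · exact Or.inl e
      · exact Or.inr (Or.inr e)
    · rcases inc_weak L h with e | e
      · exact Or.inl e.symm
      · exact Or.inr (Or.inl e)
  step := by
    intro s t h
    rcases h with h | h
    · exact inc_step L h
    · exact (inc_step L h).symm
  drop := by
    rintro ⟨v, w⟩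
    by_cases hvw : v = w
    · subst hvw
      by_cases hv : v = x0
      · left
        rw [hv, pj_v, q1_base, q2_base]
      · by_cases hq : q1 G x0 v = q2 G x0 v
        · right
          refine ⟨?_, ?_⟩
          · rw [pj_v, ← hq, hgt_v, hgt_v, fh_one L hv hq]
            ring
          · intro t ht
            rcases ht with h | h
            · obtain ⟨v', w, hf, hs, ht, hh, hp⟩ := inc_data L h
              have e : v = v' := congrArg Prod.fst hs
              subst e
              obtain ⟨h1, h2⟩ := cp_par L hf
              have hcp : cp G x0 v w = q1 G x0 v := by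
                rcases par_cases L v _ h1 with e | e
                · exact e
                · rw [hq]; exact e
              rw [hh, hp, pj_v, hcp, hgt_v, fh_one L hv hq, ← hq]
              refine ⟨by ring, rfl⟩
            · obtain ⟨v', w, hf, hs, ht⟩ := h
              exfalso
              rcases ht with e | e
              · have e1 := congrArg Prod.fst e
                have e2 := congrArg Prod.snd e
                simp only at e1 e2
                exact hf.ne (e1.symm.trans e2)
              · have e1 := congrArg Prod.fst e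
                have e2 := congrArg Prod.snd e
                simp only at e1 e2
                exact hf.ne (e2.symm.trans e1)
        · left
          have hfq := flat_q L hv hq
          rw [pj_v, hgt_e hq, hgt_v, fh_two L hv hq]
    · left
      rw [pj_e hvw, hgt_v, hgt_e hvw]
  peak := by
    intro s t t' h h' hl hl'
    rcases h with h | h
    · obtain ⟨v, w, hf, hs, ht, hh, hp⟩ := inc_data L h
      rcases h' with h' | h'
      · obtain ⟨v', w', hf', hs', ht', hh', hp'⟩ := inc_data L h'
        have e : v = v' := by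
          have := hs.symm.trans hs'
          exact congrArg Prod.fst this
        subst e
        rw [hh, hs, hgt_v] at hl
        rw [hh', hs', hgt_v] at hl'
        rw [hp, hp']
        obtain ⟨h1, h2⟩ := cp_par L hf
        obtain ⟨h3, h4⟩ := cp_par L hf'
        have hv := par_ne _ _ h1
        by_cases hc : cp G x0 v w = cp G x0 v w'
        · rw [hc]
        · exfalso
          have hne : q1 G x0 v ≠ q2 G x0 v := by
            intro hq
            rcases par_cases L v _ h1 with e | e <;> rcases par_cases L v _ h3 with e' | e' <;>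
              · apply hc
                rw [e, e']
                try rw [hq]
          have hfq := flat_q L hv hne
          rw [fh_two L hv hne] at hl hl'
          rcases par_cases L v _ h1 with e | e <;> rcases par_cases L v _ h3 with e' | e'
          · exact hc (e.trans e'.symm)
          · rw [e] at hl
            rw [e'] at hl'
            exact fh_key L _ _ _ rfl hfq hl hl'
          · rw [e] at hl
            rw [e'] at hl'
            exact fh_key L _ _ _ rfl hfq hl' hl
          · exact hc (e.trans e'.symm)
      · exfalso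
        obtain ⟨v', w', hf', hs', ht'⟩ := h'
        rw [hs] at ht'
        rcases ht' with e | e
        · have e1 := congrArg Prod.fst e
          have e2 := congrArg Prod.snd e
          simp only at e1 e2
          exact hf'.ne (e1.symm.trans e2)
        · have e1 := congrArg Prod.fst e
          have e2 := congrArg Prod.snd e
          simp only at e1 e2
          exact hf'.ne (e2.symm.trans e1)
    · rcases h' with h' | h'
      · exfalso
        obtain ⟨v, w, hf, hs, ht⟩ := h
        obtain ⟨v', w', hf', hs', ht'⟩ := h'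
        rw [hs'] at ht
        rcases ht with e | e
        · have e1 := congrArg Prod.fst e
          have e2 := congrArg Prod.snd e
          simp only at e1 e2
          exact hf.ne (e1.symm.trans e2)
        · have e1 := congrArg Prod.fst e
          have e2 := congrArg Prod.snd e
          simp only at e1 e2
          exact hf.ne (e2.symm.trans e1)
      · obtain ⟨v, w, hf, hs, ht, hh, hp⟩ := inc_data L h
        obtain ⟨v', w', hf', hs', ht', hh', hp'⟩ := inc_data L h'
        -- `s` is the edge `v w` and also the edge `v' w'`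
        have hcase : v = v' ∨ (v = w' ∧ w = v') := by
          rcases ht with e | e <;> rcases ht' with e' | e'
          · left
            exact congrArg Prod.fst (e.symm.trans e')
          · right
            have := e.symm.trans e'
            exact ⟨congrArg Prod.fst this, congrArg Prod.snd this⟩
          · right
            have := e.symm.trans e'
            exact ⟨congrArg Prod.snd this, congrArg Prod.fst this⟩
          · left
            exact congrArg Prod.snd (e.symm.trans e')
        rcases hcase with e | ⟨e1, e2⟩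
        · rw [hs, hs', e]
        · exfalso
          subst e1
          subst e2
          rw [hs, hgt_v, hh] at hl
          rw [hs', hgt_v, hh', ← cp_comm L hf] at hl'
          exact fh_key L _ _ _ rfl hf hl hl'

/-! ### Distances -/

/-- valid elements -/
def Val (G : SimpleGraph V) (x0 : V) (s : V × V) : Prop := s.1 = s.2 ∨ Flat G x0 s.1 s.2

theorem val_pj (L : Lay G x0) {s : V × V} (h : Val G x0 s) :
    Val G x0 (pj G x0 s) ∧ G.dist s.1 (pj G x0 s).1 ≤ 1 := by
  obtain ⟨v, w⟩ := s
  rcases h with h | h
  · simp only at h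
    subst h
    rw [pj_v]
    by_cases hv : v = x0
    · rw [hv, q1_base, q2_base]
      exact ⟨Or.inl rfl, by simp⟩
    · constructor
      · by_cases hq : q1 G x0 v = q2 G x0 v
        · exact Or.inl hq
        · exact Or.inr (flat_q L hv hq)
      · have := (q1_par L v hv).1
        exact le_of_eq (SimpleGraph.dist_eq_one_iff_adj.mpr this)
  · simp only at h
    rw [pj_e h.ne]
    refine ⟨Or.inl rfl, ?_⟩
    have := (cp_par L h).1.1
    exact le_of_eq (SimpleGraph.dist_eq_one_iff_adj.mpr this)

theorem val_iter (L : Lay G x0) (j : ℕ) : ∀ s : V × V, Val G x0 s →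
    Val G x0 ((pj G x0)^[j] s) ∧ G.dist s.1 ((pj G x0)^[j] s).1 ≤ j := by
  induction j with
  | zero =>
    intro s hs
    exact ⟨hs, by simp⟩
  | succ j ih =>
    intro s hs
    obtain ⟨h1, h2⟩ := val_pj L hs
    obtain ⟨h3, h4⟩ := ih _ h1
    rw [Function.iterate_succ_apply]
    refine ⟨h3, ?_⟩
    have := L.conn.dist_triangle (u := s.1) (v := (pj G x0 s).1) (w := ((pj G x0)^[j] (pj G x0 s)).1)
    omega

theorem adj_dist {s t : V × V} (h : gadj G x0 s t) :
    Val G x0 s ∧ Val G x0 t ∧ G.dist s.1 t.1 ≤ 1 := by
  have key : ∀ s t : V × V, Inc G x0 s t → Val G x0 s ∧ Val G x0 t ∧ G.dist s.1 t.1 ≤ 1 := by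
    rintro s t ⟨v, w, hf, hs, ht⟩
    rw [hs]
    refine ⟨Or.inl rfl, ?_⟩
    rcases ht with e | e
    · rw [e]
      exact ⟨Or.inr hf, by simp⟩
    · rw [e]
      exact ⟨Or.inr hf.symm, le_of_eq (SimpleGraph.dist_eq_one_iff_adj.mpr hf.1)⟩
  rcases h with h | h
  · exact key s t h
  · obtain ⟨h1, h2, h3⟩ := key t s h
    refine ⟨h2, h1, ?_⟩
    rw [SimpleGraph.dist_comm]
    exact h3

theorem dn_dist (L : Lay G x0) {s t : V × V} (h : Dn (sys L) s t) :
    (G.dist s.1 t.1 : ℤ) ≤ hgt G x0 s - hgt G x0 t := by
  induction h with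
  | refl => simp
  | @tail y z hsy hyz ih =>
    have h1 : gadj G x0 y z := hyz.1
    have h2 : hgt G x0 z = hgt G x0 y - 1 := hyz.2
    have h3 := (adj_dist h1).2.2
    have h4 := L.conn.dist_triangle (u := s.1) (v := y.1) (w := z.1)
    omega

/-- lightness for a layered graph -/
theorem light_dist (L : Lay G x0) (h : ℕ) (a : ℤ) (s t : V × V) (hvs : Val G x0 s)
    (hvt : Val G x0 t) (hsa : a ≤ hgt G x0 s) (hs : hgt G x0 s ≤ a + h)
    (hw : Wk (sys L) a (a + h) s t) : G.dist s.1 t.1 ≤ 4 * h := by
  obtain ⟨j, hj, r, h1, h2, h3, h4⟩ := light_wk (S := sys L) h a s t hsa hs hw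
  have h5 := (val_iter L j s hvs).2
  have h6 := (val_iter L j t hvt).2
  have h7 := dn_dist L h1
  have h8 := dn_dist L h2
  have h3' : hgt G x0 ((pj G x0)^[j] s) - hgt G x0 r ≤ h := h3
  have h4' : hgt G x0 ((pj G x0)^[j] t) - hgt G x0 r ≤ h := h4
  have h7' : (G.dist ((pj G x0)^[j] s).1 r.1 : ℤ) ≤ hgt G x0 ((pj G x0)^[j] s) - hgt G x0 r := h7
  have h8' : (G.dist ((pj G x0)^[j] t).1 r.1 : ℤ) ≤ hgt G x0 ((pj G x0)^[j] t) - hgt G x0 r := h8
  have h9 := L.conn.dist_triangle (u := s.1) (v := ((pj G x0)^[j] s).1) (w := r.1)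
  have h10 := L.conn.dist_triangle (u := t.1) (v := ((pj G x0)^[j] t).1) (w := r.1)
  have h11 := L.conn.dist_triangle (u := s.1) (v := r.1) (w := t.1)
  rw [SimpleGraph.dist_comm (u := r.1) (v := t.1)] at h11
  omega

end Pool.H90SY
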