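import Pool.Agent.H90.SY.Light

set_option autoImplicit false

namespace Pool.H90SY

universe u

variable {V : Type u}

/-- What is needed from the graph and the base point. -/
structure Lay (G : SimpleGraph V) (x0 : V) : Prop where
  conn : G.Connected
  cl : ∀ v u w : V, G.Adj v u → G.Adj v w → G.dist x0 u + 1 = G.dist x0 v →
    G.dist x0 w + 1 = G.dist x0 v → u ≠ w → G.Adj u w
  tc : ∀ v w : V, G.Adj v w → G.dist x0 v = G.dist x0 w →
    ∃ p : V, G.Adj p v ∧ G.Adj p w ∧ G.dist x0 p + 1 = G.dist x0 v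
  k4 : ∀ a b c d : V, G.Adj a b → G.Adj a c → G.Adj a d → G.Adj b c → G.Adj b d → G.Adj c d →
    False
  w5 : ∀ z a b c d e : V, G.Adj z a → G.Adj z b → G.Adj z c → G.Adj z d → G.Adj z e →
    G.Adj a b → G.Adj b c → G.Adj c d → G.Adj d e → G.Adj e a →
    a ≠ c → a ≠ d → b ≠ d → b ≠ e → c ≠ e → False

section

variable (G : SimpleGraph V) (x0 : V)

/-- `u` is a parent of `v` -/
def Par (v u : V) : Prop := G.Adj v u ∧ G.dist x0 u + 1 = G.dist x0 v

open Classical in
/-- first parent -/
noncomputable def q1 (v : V) : V := if h : ∃ u, Par G x0 v u then h.choose else v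

open Classical in
/-- second parent (equal to the first one if there is only one) -/
noncomputable def q2 (v : V) : V :=
  if h : ∃ u, Par G x0 v u ∧ u ≠ q1 G x0 v then h.choose else q1 G x0 v

open Classical in
/-- the common parent of two adjacent vertices of the same level -/
noncomputable def cp (v w : V) : V :=
  if h : ∃ u, Par G x0 v u ∧ Par G x0 w u then h.choose else v

open Classical in
/-- the height function by level -/
noncomputable def F : ℕ → V → ℤ
  | 0, _ => 0
  | 1, _ => 1
  | (n + 2), v =>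
    if q1 G x0 v = q2 G x0 v then F (n + 1) (q1 G x0 v) + 1
    else F n (cp G x0 (q1 G x0 v) (q2 G x0 v))

/-- the height of a vertex: the number of vertices of type one on the directed geodesic -/
noncomputable def fh (v : V) : ℤ := F G x0 (G.dist x0 v) v

end

variable {G : SimpleGraph V} {x0 : V}

theorem exists_par (L : Lay G x0) (v : V) (hv : v ≠ x0) : ∃ u, Par G x0 v u := by
  have h1 : 0 < G.dist x0 v := L.conn.pos_dist_of_ne (Ne.symm hv)
  obtain ⟨w, hw⟩ := L.conn.exists_walk_length_eq_dist v x0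
  cases w with
  | nil => exact absurd rfl hv
  | cons hadj p =>
    rename_i u
    refine ⟨u, hadj, ?_⟩
    rw [SimpleGraph.Walk.length_cons] at hw
    have h2 : G.dist u x0 ≤ p.length := SimpleGraph.dist_le p
    have h3 : G.dist v x0 ≤ 1 + G.dist u x0 := by
      have := L.conn.dist_triangle (u := v) (v := u) (w := x0)
      rw [SimpleGraph.dist_eq_one_iff_adj.mpr hadj] at this
      exact this
    rw [SimpleGraph.dist_comm (u := x0) (v := u), SimpleGraph.dist_comm (u := x0) (v := v)]
    omega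

theorem par_ne (v u : V) (h : Par G x0 v u) : v ≠ x0 := by
  rintro rfl
  have := h.2
  simp at this

theorem q1_par (L : Lay G x0) (v : V) (hv : v ≠ x0) : Par G x0 v (q1 G x0 v) := by
  unfold q1
  rw [dif_pos (exists_par L v hv)]
  exact (exists_par L v hv).choose_spec

theorem q2_par (L : Lay G x0) (v : V) (hv : v ≠ x0) : Par G x0 v (q2 G x0 v) := by
  unfold q2
  split_ifs with h
  · exact h.choose_spec.1
  · exact q1_par L v hv

theorem q1_base : q1 G x0 x0 = x0 := by
  unfold q1
  rw [dif_neg]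
  rintro ⟨u, hu⟩
  exact par_ne _ _ hu rfl

theorem q2_base : q2 G x0 x0 = x0 := by
  unfold q2
  rw [dif_neg, q1_base]
  rintro ⟨u, hu, _⟩
  exact par_ne _ _ hu rfl

/-- every parent is one of the two -/
theorem par_cases (L : Lay G x0) (v u : V) (h : Par G x0 v u) :
    u = q1 G x0 v ∨ u = q2 G x0 v := by
  have hv := par_ne v u h
  by_contra hc
  rw [not_or] at hc
  have h1 := q1_par L v hv
  have hex : ∃ u, Par G x0 v u ∧ u ≠ q1 G x0 v := ⟨u, h, hc.1⟩
  have e : q2 G x0 v = hex.choose := by
    unfold q2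
    rw [dif_pos hex]
  have h2 := q2_par L v hv
  have h3 : q2 G x0 v ≠ q1 G x0 v := by
    rw [e]
    exact hex.choose_spec.2
  exact L.k4 v u (q1 G x0 v) (q2 G x0 v) h.1 h1.1 h2.1
    (L.cl v u _ h.1 h1.1 h.2 h1.2 hc.1) (L.cl v u _ h.1 h2.1 h.2 h2.2 hc.2)
    (L.cl v _ _ h1.1 h2.1 h1.2 h2.2 (Ne.symm h3))

/-- the pair condition: adjacent and of the same level -/
def Flat (G : SimpleGraph V) (x0 : V) (v w : V) : Prop := G.Adj v w ∧ G.dist x0 v = G.dist x0 w

theorem Flat.symm {v w : V} (h : Flat G x0 v w) : Flat G x0 w v := ⟨h.1.symm, h.2.symm⟩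

theorem cp_par (L : Lay G x0) {v w : V} (h : Flat G x0 v w) :
    Par G x0 v (cp G x0 v w) ∧ Par G x0 w (cp G x0 v w) := by
  have hex : ∃ u, Par G x0 v u ∧ Par G x0 w u := by
    obtain ⟨p, hp1, hp2, hp3⟩ := L.tc v w h.1 h.2
    exact ⟨p, ⟨hp1.symm, hp3⟩, ⟨hp2.symm, by rw [← h.2]; exact hp3⟩⟩
  unfold cp
  rw [dif_pos hex]
  exact hex.choose_spec

theorem cp_unique (L : Lay G x0) {v w u : V} (h : Flat G x0 v w) (h1 : Par G x0 v u)
    (h2 : Par G x0 w u) : u = cp G x0 v w := by
  by_contra hne
  obtain ⟨h3, h4⟩ := cp_par L h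
  exact L.k4 v w u (cp G x0 v w) h.1 h1.1 h3.1 h2.1 h4.1 (L.cl v _ _ h1.1 h3.1 h1.2 h3.2 hne)

theorem cp_comm (L : Lay G x0) {v w : V} (h : Flat G x0 v w) : cp G x0 v w = cp G x0 w v := by
  obtain ⟨h3, h4⟩ := cp_par L h
  exact cp_unique L h.symm h4 h3

theorem flat_q (L : Lay G x0) {v : V} (hv : v ≠ x0) (h : q1 G x0 v ≠ q2 G x0 v) :
    Flat G x0 (q1 G x0 v) (q2 G x0 v) := by
  have h1 := q1_par L v hv
  have h2 := q2_par L v hv
  refine ⟨L.cl v _ _ h1.1 h2.1 h1.2 h2.2 h, ?_⟩
  have := h1.2
  have := h2.2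
  omega

theorem fh_base : fh G x0 x0 = 0 := by
  unfold fh
  rw [SimpleGraph.dist_self]
  rfl

theorem fh_one (L : Lay G x0) {v : V} (hv : v ≠ x0) (h : q1 G x0 v = q2 G x0 v) :
    fh G x0 v = fh G x0 (q1 G x0 v) + 1 := by
  have h1 := q1_par L v hv
  have h2 := h1.2
  unfold fh
  rcases hn : G.dist x0 v with _ | _ | n
  · omega
  · have h3 : G.dist x0 (q1 G x0 v) = 0 := by omega
    rw [h3]
    rfl
  · have h3 : G.dist x0 (q1 G x0 v) = n + 1 := by omega
    rw [h3]
    simp only [F]
    rw [if_pos h]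

theorem fh_two (L : Lay G x0) {v : V} (hv : v ≠ x0) (h : q1 G x0 v ≠ q2 G x0 v) :
    fh G x0 v = fh G x0 (cp G x0 (q1 G x0 v) (q2 G x0 v)) := by
  have h1 := q1_par L v hv
  have h2 := h1.2
  have hf := flat_q L hv h
  have h4 := (cp_par L hf).1.2
  unfold fh
  rcases hn : G.dist x0 v with _ | _ | n
  · omega
  · omega
  · have h3 : G.dist x0 (cp G x0 (q1 G x0 v) (q2 G x0 v)) = n := by omega
    rw [h3]
    simp only [F]
    rw [if_neg h]

/-- adjacent elements have heights differing by exactly one -/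
theorem fh_step (L : Lay G x0) : ∀ (n : ℕ) (v w : V), G.dist x0 v = n → Flat G x0 v w →
    fh G x0 v = fh G x0 (cp G x0 v w) + 1 ∨ fh G x0 v = fh G x0 (cp G x0 v w) - 1 := by
  intro n
  induction n using Nat.strong_induction_on with
  | _ n ih =>
    intro v w hn hf
    obtain ⟨h1, h2⟩ := cp_par L hf
    have hv := par_ne _ _ h1
    rcases par_cases L v _ h1 with e | e
    · by_cases h : q1 G x0 v = q2 G x0 v
      · left
        rw [fh_one L hv h, ← e]
      · have hq := flat_q L hv h
        rw [fh_two L hv h, e]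
        have := ih (G.dist x0 (q1 G x0 v)) (by have := (q1_par L v hv).2; omega) _ _ rfl hq
        omega
    · by_cases h : q1 G x0 v = q2 G x0 v
      · left
        rw [fh_one L hv h, e, ← h]
      · have hq := flat_q L hv h
        rw [fh_two L hv h, e, cp_comm L hq]
        have := ih (G.dist x0 (q2 G x0 v)) (by have := (q2_par L v hv).2; omega) _ _ rfl hq.symm
        omega

/-- the key property: no edge with both ends lower -/
theorem fh_key (L : Lay G x0) : ∀ (n : ℕ) (v w : V), G.dist x0 v = n → Flat G x0 v w →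
    fh G x0 v = fh G x0 (cp G x0 v w) - 1 → fh G x0 w = fh G x0 (cp G x0 v w) - 1 → False := by
  intro n
  induction n using Nat.strong_induction_on with
  | _ n ih =>
    intro v w hn hf hv1 hw1
    obtain ⟨h1, h2⟩ := cp_par L hf
    have hv := par_ne _ _ h1
    have hw := par_ne _ _ h2
    set z := cp G x0 v w with hz
    -- `v` has a second parent `a`
    have other : ∀ v : V, Par G x0 v z → fh G x0 v = fh G x0 z - 1 →
        ∃ a : V, Par G x0 v a ∧ Flat G x0 z a ∧ fh G x0 v = fh G x0 (cp G x0 z a) := by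
      intro v hp hval
      have hv := par_ne _ _ hp
      have hne : q1 G x0 v ≠ q2 G x0 v := by
        intro h
        have h3 := fh_one L hv h
        rcases par_cases L v _ hp with e | e
        · rw [← e] at h3; omega
        · rw [h, ← e] at h3; omega
      have hq := flat_q L hv hne
      rcases par_cases L v _ hp with e | e
      · refine ⟨q2 G x0 v, q2_par L v hv, ?_, ?_⟩
        · rw [e]; exact hq
        · rw [fh_two L hv hne, ← e]
      · refine ⟨q1 G x0 v, q1_par L v hv, ?_, ?_⟩
        · rw [e]; exact hq.symm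
        · rw [fh_two L hv hne, ← e, cp_comm L (by rw [e]; exact hq)]
    obtain ⟨a, ha1, ha2, ha3⟩ := other v h1 hv1
    obtain ⟨b, hb1, hb2, hb3⟩ := other w h2 hw1
    have hab : a ≠ b := by
      rintro rfl
      have := cp_unique L hf ha1 hb1
      rw [← hz] at this
      exact ha2.1.ne this.symm
    obtain ⟨hy1, hy2⟩ := cp_par L ha2
    obtain ⟨hy3, hy4⟩ := cp_par L hb2
    have hl1 := h1.2
    have hl2 := hf.2
    have hl3 := ha2.2
    have hl4 := hb2.2
    have hl5 := hy1.2
    have hl6 := hy3.2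
    by_cases hyy : cp G x0 z a = cp G x0 z b
    · -- a 5-wheel around `z`
      refine L.w5 z a v w b (cp G x0 z a) ha2.1 h1.1.symm h2.1.symm hb2.1 hy1.1 ha1.1.symm hf.1
        hb1.1 ?_ hy2.1.symm ?_ hab ?_ ?_ ?_
      · rw [hyy]; exact hy4.1
      · intro h
        rw [h] at hl3
        omega
      · intro h
        rw [← h] at hl4
        omega
      · intro h
        rw [← h] at hl5
        omega
      · intro h
        rw [← h] at hl5
        omega
    · have hflat : Flat G x0 (cp G x0 z a) (cp G x0 z b) :=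
        ⟨L.cl z _ _ hy1.1 hy3.1 hy1.2 hy3.2 hyy, by omega⟩
      have hz0 := par_ne _ _ hy1
      have hfz : fh G x0 z = fh G x0 (cp G x0 (cp G x0 z a) (cp G x0 z b)) := by
        rcases par_cases L z _ hy1 with e1 | e1 <;> rcases par_cases L z _ hy3 with e2 | e2
        · exact absurd (e1.trans e2.symm) hyy
        · have hne : q1 G x0 z ≠ q2 G x0 z := by
            rw [← e1, ← e2]; exact hyy
          rw [fh_two L hz0 hne, ← e1, ← e2]
        · have hne : q1 G x0 z ≠ q2 G x0 z := by
            rw [← e1, ← e2]; exact Ne.symm hyy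
          rw [fh_two L hz0 hne, ← e1, ← e2, cp_comm L hflat.symm]
        · exact absurd (e1.trans e2.symm) hyy
      exact ih (G.dist x0 (cp G x0 z a)) (by omega) _ _ rfl hflat (by omega) (by omega)

end Pool.H90SY
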