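import Mathlib

set_option autoImplicit false

namespace Pool.H90SY

universe u

/-- An inverse system of graphs in one type: `pr` is the bonding map (one level down), `ht` is the
height function. -/
structure Sys (Γ : Type u) where
  adj : Γ → Γ → Prop
  pr : Γ → Γ
  ht : Γ → ℤ
  symm : ∀ {s t : Γ}, adj s t → adj t s
  weak : ∀ {s t : Γ}, adj s t → pr s = pr t ∨ adj (pr s) (pr t)
  step : ∀ {s t : Γ}, adj s t → ht t = ht s - 1 ∨ ht s = ht t - 1
  drop : ∀ s : Γ, ht (pr s) = ht s ∨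
    (ht (pr s) = ht s - 1 ∧ ∀ t : Γ, adj s t → ht t = ht s - 1 ∧ pr t = pr s)
  peak : ∀ {s t t' : Γ}, adj s t → adj s t' → ht t = ht s - 1 → ht t' = ht s - 1 → pr t = pr t'

variable {Γ : Type u} (S : Sys Γ)

/-- one descending step -/
def D1 (x y : Γ) : Prop := S.adj x y ∧ S.ht y = S.ht x - 1

/-- descending walks -/
def Dn (s t : Γ) : Prop := Relation.ReflTransGen (D1 S) s t

/-- walks with all later heights in `[a, M]` -/
def Wk (a M : ℤ) (s t : Γ) : Prop :=
  Relation.ReflTransGen (fun x y => S.adj x y ∧ a ≤ S.ht y ∧ S.ht y ≤ M) s t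

variable {S}

theorem ht_pr_le (s : Γ) : S.ht (S.pr s) ≤ S.ht s := by
  rcases S.drop s with h | h
  · omega
  · omega

theorem good {a : ℤ} {x z : Γ} (hx : a ≤ S.ht x) (hxz : S.adj x z) (hz : a ≤ S.ht z) :
    a ≤ S.ht (S.pr x) := by
  rcases S.drop x with h | ⟨h, h2⟩
  · omega
  · have := (h2 z hxz).1
    omega

theorem dn_pr {s t : Γ} (h : Dn S s t) : Dn S (S.pr s) (S.pr t) := by
  induction h with
  | refl => exact Relation.ReflTransGen.refl
  | @tail y z hsy hyz ih =>
    obtain ⟨hadj, hht⟩ := hyz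
    have hz : S.ht (S.pr z) = S.ht z := by
      rcases S.drop z with h | ⟨_, h2⟩
      · exact h
      · have := (h2 y (S.symm hadj)).1
        omega
    rcases S.drop y with h | ⟨_, h2⟩
    · rcases S.weak hadj with e | e
      · rw [e] at h
        omega
      · exact ih.tail ⟨e, by omega⟩
    · rw [(h2 z hadj).2]
      exact ih

theorem dn_ht {s t : Γ} (h : Dn S s t) : S.ht t ≤ S.ht s := by
  induction h with
  | refl => exact le_refl _
  | tail _ hyz ih =>
    have := hyz.2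
    omega

/-- if `r` is reached by a nontrivial descending walk then its projection keeps its height -/
theorem dn_last {s r : Γ} (h : Dn S s r) (hne : s ≠ r) : S.ht (S.pr r) = S.ht r := by
  rcases Relation.ReflTransGen.cases_tail h with e | ⟨y, _, hyz⟩
  · exact absurd e.symm hne
  · rcases S.drop r with h | ⟨_, h2⟩
    · exact h
    · have := (h2 y (S.symm hyz.1)).1
      have := hyz.2
      omega

theorem wk_symm {a M : ℤ} {x y : Γ} (hx : a ≤ S.ht x) (hxM : S.ht x ≤ M) (h : Wk S a M x y) :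
    Wk S a M y x := by
  induction h with
  | refl => exact Relation.ReflTransGen.refl
  | @tail y z hxy hyz ih =>
    have hy : a ≤ S.ht y ∧ S.ht y ≤ M := by
      rcases Relation.ReflTransGen.cases_tail hxy with e | ⟨w, _, hw⟩
      · rw [e]; exact ⟨hx, hxM⟩
      · exact hw.2
    exact Relation.ReflTransGen.head ⟨S.symm hyz.1, hy⟩ ih

theorem wk_end {a M : ℤ} {x y : Γ} (hx : a ≤ S.ht x) (hxM : S.ht x ≤ M) (h : Wk S a M x y) :
    a ≤ S.ht y ∧ S.ht y ≤ M := by
  rcases Relation.ReflTransGen.cases_tail h with e | ⟨w, _, hw⟩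
  · rw [e]; exact ⟨hx, hxM⟩
  · exact hw.2

/-- Lemma A: walks project, and the top height drops by one. -/
theorem wk_pr {a M : ℤ} {x y : Γ} (hy : S.ht y ≤ M - 1) (h : Wk S a M x y) :
    (a ≤ S.ht x → S.ht x ≤ M - 1 → a ≤ S.ht (S.pr x) → Wk S a (M - 1) (S.pr x) (S.pr y)) ∧
    (∀ x0 : Γ, S.adj x0 x → S.ht x = M → S.ht x0 = M - 1 → a ≤ S.ht x0 → a ≤ S.ht (S.pr x0) →
      Wk S a (M - 1) (S.pr x0) (S.pr y)) := by
  induction h using Relation.ReflTransGen.head_induction_on with
  | refl =>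
    refine ⟨fun _ _ _ => Relation.ReflTransGen.refl, ?_⟩
    intro x0 _ h1
    omega
  | @head x z hxz hzy ih =>
    obtain ⟨hadj, hza, hzM⟩ := hxz
    constructor
    · intro hxa hxM hpx
      by_cases hz : S.ht z ≤ M - 1
      · have hgz : a ≤ S.ht (S.pr z) := good hza (S.symm hadj) hxa
        have h1 := ih.1 hza hz hgz
        have h2 := ht_pr_le (S := S) z
        rcases S.weak hadj with e | e
        · rw [e]; exact h1
        · exact Relation.ReflTransGen.head ⟨e, hgz, by omega⟩ h1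
      · have hz2 : S.ht z = M := by omega
        have h3 : S.ht x = M - 1 := by
          rcases S.step hadj with h | h <;> omega
        exact ih.2 x hadj hz2 h3 hxa hpx
    · intro x0 hx0 hxM hx0M hx0a hpx0
      have hz : S.ht z = M - 1 := by
        rcases S.step hadj with h | h
        · omega
        · omega
      have e : S.pr x0 = S.pr z := S.peak (S.symm hx0) hadj (by omega) (by omega)
      rw [e]
      rw [e] at hpx0
      exact ih.1 hza (by omega) hpx0

/-- normalisation at the left end of a nontrivial walk -/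
theorem wk_norm {a M : ℤ} {x y : Γ} (hx : a ≤ S.ht x) (hxM : S.ht x ≤ M) (hne : x ≠ y)
    (h : Wk S a M x y) :
    ∃ x' : Γ, Dn S x x' ∧ a ≤ S.ht x' ∧ S.ht x' ≤ M - 1 ∧ a ≤ S.ht (S.pr x') ∧ Wk S a M x' y := by
  rcases Relation.ReflTransGen.cases_head h with e | ⟨z, hxz, hzy⟩
  · exact absurd e hne
  · obtain ⟨hadj, hza, hzM⟩ := hxz
    by_cases hc : S.ht x ≤ M - 1
    · exact ⟨x, Relation.ReflTransGen.refl, hx, hc, good hx hadj hza, h⟩
    · have hz : S.ht z = S.ht x - 1 := by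
        rcases S.step hadj with h | h <;> omega
      exact ⟨z, Relation.ReflTransGen.single ⟨hadj, hz⟩, hza, by omega,
        good hza (S.symm hadj) hx, hzy⟩

/-- the connection relation -/
def Conn (S : Sys Γ) (a M : ℤ) (s t : Γ) : Prop :=
  ∃ s' t' : Γ, Dn S s s' ∧ Dn S t t' ∧ a ≤ S.ht s' ∧ a ≤ S.ht t' ∧
    (s' = t' ∨ (S.ht s' ≤ M ∧ S.ht t' ≤ M ∧ Wk S a M s' t'))

theorem conn_join {a M : ℤ} {s t r : Γ} (hs : Dn S s r) (ht : Dn S t r) (hr : a ≤ S.ht r)
    (hne : s ≠ t) : Conn S a M (S.pr s) (S.pr t) := by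
  have hr2 : S.ht (S.pr r) = S.ht r := by
    by_cases h : s = r
    · have h2 : t ≠ r := fun h3 => hne (h.trans h3.symm)
      exact dn_last ht h2
    · exact dn_last hs h
  exact ⟨S.pr r, S.pr r, dn_pr hs, dn_pr ht, by omega, by omega, Or.inl rfl⟩

theorem conn_step {a M : ℤ} {s t : Γ} (h : Conn S a M s t) (hne : s ≠ t) :
    Conn S a (M - 1) (S.pr s) (S.pr t) := by
  obtain ⟨s', t', hs, ht, hsa, hta, hw⟩ := h
  by_cases hst : s' = t'
  · rw [← hst] at ht
    exact conn_join hs ht hsa hne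
  · rcases hw with e | ⟨hsM, htM, hw⟩
    · exact absurd e hst
    · obtain ⟨x, hsx, hxa, hxM, hpx, hxw⟩ := wk_norm hsa hsM hst hw
      by_cases hxt : x = t'
      · rw [← hxt] at ht
        exact conn_join (hs.trans hsx) ht hxa hne
      · have hw2 := wk_symm hxa (by omega) hxw
        obtain ⟨y, hty, hya, hyM, hpy, hyw⟩ := wk_norm hta htM (Ne.symm hxt) hw2
        by_cases hxy : x = y
        · rw [← hxy] at hty
          exact conn_join (hs.trans hsx) (ht.trans hty) hxa hne
        · have hw3 := wk_symm hya (by omega) hyw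
          have hw4 := (wk_pr hyM hw3).1 hxa hxM hpx
          have h5 := ht_pr_le (S := S) x
          have h6 := ht_pr_le (S := S) y
          exact ⟨S.pr x, S.pr y, dn_pr (hs.trans hsx), dn_pr (ht.trans hty), hpx, hpy,
            Or.inr ⟨by omega, by omega, hw4⟩⟩

theorem conn_zero {a : ℤ} {s t : Γ} (h : Conn S a a s t) :
    ∃ r : Γ, Dn S s r ∧ Dn S t r ∧ a ≤ S.ht r := by
  obtain ⟨s', t', hs, ht, hsa, hta, hw⟩ := h
  by_cases hst : s' = t'
  · rw [← hst] at ht
    exact ⟨s', hs, ht, hsa⟩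
  · rcases hw with e | ⟨hsM, htM, hw⟩
    · exact absurd e hst
    · obtain ⟨x, hsx, hxa, hxM, hpx, hxw⟩ := wk_norm hsa hsM hst hw
      omega

/-- the abstract lightness theorem -/
theorem light (h : ℕ) : ∀ (a : ℤ) (s t : Γ), Conn S a (a + h) s t → S.ht s ≤ a + h →
    S.ht t ≤ a + h →
    ∃ j : ℕ, j ≤ h ∧ ∃ r : Γ, Dn S (S.pr^[j] s) r ∧ Dn S (S.pr^[j] t) r ∧
      S.ht (S.pr^[j] s) - S.ht r ≤ h ∧ S.ht (S.pr^[j] t) - S.ht r ≤ h := by
  have key : ∀ (h : ℕ) (a : ℤ) (s t : Γ), Conn S a (a + h) s t →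
      ∃ j : ℕ, j ≤ h ∧ ∃ r : Γ, Dn S (S.pr^[j] s) r ∧ Dn S (S.pr^[j] t) r ∧
      (S.pr^[j] s = S.pr^[j] t ∧ r = S.pr^[j] s ∨ a ≤ S.ht r) := by
    intro h
    induction h with
    | zero =>
      intro a s t hc
      have hc' : Conn S a a s t := by simpa using hc
      obtain ⟨r, h1, h2, h3⟩ := conn_zero hc'
      exact ⟨0, le_refl _, r, h1, h2, Or.inr h3⟩
    | succ h ih =>
      intro a s t hc
      by_cases hst : s = t
      · subst hst
        exact ⟨0, Nat.zero_le _, s, Relation.ReflTransGen.refl, Relation.ReflTransGen.refl,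
          Or.inl ⟨rfl, rfl⟩⟩
      · have h1 := conn_step hc hst
        have e : a + ((h + 1 : ℕ) : ℤ) - 1 = a + (h : ℤ) := by push_cast; ring
        rw [e] at h1
        obtain ⟨j, hj, r, h2, h3, h4⟩ := ih a _ _ h1
        refine ⟨j + 1, by omega, r, ?_, ?_, ?_⟩
        · rw [Function.iterate_succ_apply]; exact h2
        · rw [Function.iterate_succ_apply]; exact h3
        · rw [Function.iterate_succ_apply, Function.iterate_succ_apply]; exact h4
  have mono : ∀ (j : ℕ) (s : Γ), S.ht (S.pr^[j] s) ≤ S.ht s := by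
    intro j
    induction j with
    | zero => intro s; exact le_refl _
    | succ j ih =>
      intro s
      rw [Function.iterate_succ_apply]
      exact le_trans (ih _) (ht_pr_le s)
  intro a s t hc hs ht
  obtain ⟨j, hj, r, h1, h2, h3⟩ := key h a s t hc
  refine ⟨j, hj, r, h1, h2, ?_, ?_⟩
  · rcases h3 with ⟨h4, h5⟩ | h4
    · rw [h5]; simp
    · have := mono j s
      omega
  · rcases h3 with ⟨h4, h5⟩ | h4
    · rw [h5, h4]; simp
    · have := mono j t
      omega

/-- for elements joined by a walk with heights in `[a, a+h]` -/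
theorem light_wk (h : ℕ) (a : ℤ) (s t : Γ) (hsa : a ≤ S.ht s) (hs : S.ht s ≤ a + h)
    (hw : Wk S a (a + h) s t) :
    ∃ j : ℕ, j ≤ h ∧ ∃ r : Γ, Dn S (S.pr^[j] s) r ∧ Dn S (S.pr^[j] t) r ∧
      S.ht (S.pr^[j] s) - S.ht r ≤ h ∧ S.ht (S.pr^[j] t) - S.ht r ≤ h := by
  have h1 := wk_end hsa hs hw
  exact light h a s t ⟨s, t, Relation.ReflTransGen.refl, Relation.ReflTransGen.refl, hsa, h1.1,
    Or.inr ⟨hs, h1.2, hw⟩⟩ hs h1.2

end Pool.H90SY
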