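import Pool.Agent.H90.SY.ClStep

set_option autoImplicit false

namespace Pool.H90SY

universe u

variable {V : Type u}

namespace TcStep

open ClStep

variable {G : SimpleGraph V}

/-- A pair violating (TC) at distance `r + 1`. -/
structure VT (G : SimpleGraph V) (r : ℕ) (x v w : V) : Prop where
  hv : G.dist x v = r + 1
  hw : G.dist x w = r + 1
  adj : G.Adj v w
  no : ∀ p : V, G.Adj p v → G.Adj p w → G.dist x p = r → False

theorem VT.symm {r : ℕ} {x v w : V} (H : VT G r x v w) : VT G r x w v :=
  ⟨H.hw, H.hv, H.adj.symm, fun p h1 h2 h3 => H.no p h2 h1 h3⟩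

theorem VT.one_le (hc : G.Connected) {r : ℕ} {x v w : V} (H : VT G r x v w) : 1 ≤ r := by
  by_contra h
  have h0 : r = 0 := by omega
  have h1 := H.hv
  have h2 := H.hw
  subst h0
  exact H.no x (SimpleGraph.dist_eq_one_iff_adj.1 h1) (SimpleGraph.dist_eq_one_iff_adj.1 h2)
    SimpleGraph.dist_self

section

variable {r : ℕ} {x v w : V}

/-- T1 -/
theorem disj (hc : G.Connected) (htc : ∀ m : ℕ, m ≤ r → TCn G m) (H : VT G r x v w) {z : V}
    (h1 : G.dist x z + G.dist z v = r + 1) (h2 : G.dist x z + G.dist z w = r + 1) (hz : z ≠ x) :
    False := by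
  have hpos := pos hc hz.symm
  obtain ⟨p, p1, p2, p3⟩ := htc (G.dist z v) (by omega) z v w H.adj rfl (by omega)
  have e1 := tri hc x z p
  have e2 := lip hc x p1.symm
  have := H.hv
  exact H.no p p1 p2 (by omega)

/-- T2 -/
theorem na (hc : G.Connected) (hcl : ∀ m : ℕ, m ≤ r + 1 → CLn G m)
    (htc : ∀ m : ℕ, m ≤ r → TCn G m) (H : VT G r x v w) {y y' : V}
    (hy : G.dist x y = 1) (hy' : G.dist x y' = 1) (h1 : G.dist y v = r)
    (h2 : G.dist y' w = r) (hadj : G.Adj y y') : False := by
  have hv := H.hv
  have hw := H.hw
  have hr1 := H.one_le hc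
  have hyx : y ≠ x := by
    rintro rfl
    rw [SimpleGraph.dist_self] at hy
    omega
  have dyw : G.dist y w = r + 1 := by
    have a1 := lip hc w hadj
    rw [SimpleGraph.dist_comm (u := w), SimpleGraph.dist_comm (u := w)] at a1
    have a2 := tri hc x y w
    by_contra hne
    exact disj hc htc H (z := y) (by omega) (by omega) hyx
  obtain ⟨b, ab, db⟩ := parent hc (x := y') (y := w) (k := r - 1) (by omega)
  have dxb : G.dist x b = r := by
    have a1 := tri hc x y' b
    have a2 := lip hc x ab
    omega
  have dyb : G.dist y b = r := by
    have a1 := lip hc b hadj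
    rw [SimpleGraph.dist_comm (u := b), SimpleGraph.dist_comm (u := b)] at a1
    have a2 := lip hc y ab
    omega
  have hne : v ≠ b := by
    rintro rfl
    omega
  have avb : G.Adj v b :=
    hcl (r + 1) le_rfl y w v b dyw H.adj.symm ab (by omega) (by omega) hne
  exact H.no b avb.symm ab.symm dxb

/-- T5 -/
theorem t5 (hc : G.Connected) (hB : Bridged G) (hcl : ∀ m : ℕ, m ≤ r + 1 → CLn G m)
    (htc : ∀ m : ℕ, m ≤ r → TCn G m) (H : VT G r x v w) {z : V} (hzx : z ≠ x)
    (hzw : G.dist x z + G.dist z w = r + 1) : ∀ (i : ℕ) (y : V), y ≠ x → G.dist y v = i →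
      G.dist x y + i = r + 1 → i + G.dist z w ≤ r → G.dist z y = i + G.dist z w + 1 := by
  have hv := H.hv
  have hw := H.hw
  have hzpos := pos hc hzx.symm
  have hzv : G.dist z v = G.dist z w + 1 := by
    have b1 := lip hc z H.adj
    have b2 := tri hc x z v
    by_contra hne
    exact disj hc htc H (z := z) (by omega) hzw hzx
  intro i
  induction i using Nat.strong_induction_on with
  | _ i ih =>
    intro y hyx hyu hxy hle
    rcases i with _ | i
    · obtain rfl := eq_of_zero hc hyu
      omega
    · obtain ⟨y', yy', hy'⟩ := closer hc hyu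
      have hlev' : G.dist x y' = G.dist x y + 1 := by
        have a1 := lip hc x yy'.symm
        have a2 := tri hc x y' v
        omega
      have hyx' : y' ≠ x := by
        rintro rfl
        rw [SimpleGraph.dist_self] at hlev'
        omega
      have hzy' : G.dist z y' = i + G.dist z w + 1 :=
        ih i (by omega) y' hyx' hy' (by omega) (by omega)
      have c1 := lip hc z yy'
      have c2 := lip hc z yy'.symm
      rcases i with _ | i
      · -- `y' = v`
        obtain rfl := eq_of_zero hc hy'
        by_contra hne
        have hyw : y ≠ w := by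
          rintro rfl
          omega
        have hyna : ¬ G.Adj y w := fun h => H.no y yy' h (by omega)
        by_cases h0 : G.dist z y = G.dist z w
        · exact hyna (hcl (G.dist z y') (by omega) z y' y w rfl yy'.symm H.adj (by omega)
            (by omega) hyw)
        · have h1 : G.dist z y = G.dist z y' := by omega
          obtain ⟨q, qy, qy', hq⟩ := htc (G.dist z y') (by omega) z y y' yy' h1 rfl
          have hqw : q ≠ w := by
            rintro rfl
            exact hyna qy.symm
          have aq : G.Adj q w :=
            hcl (G.dist z y') (by omega) z y' q w rfl qy'.symm H.adj hq (by omega) hqw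
          have hlq : G.dist x q = r + 1 := by
            have d1 := lip hc x qy
            have d2 := lip hc x qy'.symm
            by_contra hq'
            exact H.no q qy' aq (by omega)
          -- `q` and `w` have a common parent
          obtain ⟨s, sq, sw, hs⟩ : ∃ s, G.Adj s q ∧ G.Adj s w ∧ G.dist x s = r := by
            by_contra hno
            push_neg at hno
            have H' : VT G r x q w := ⟨hlq, hw, aq, fun p p1 p2 p3 => hno p p1 p2 p3⟩
            exact disj hc htc H' (z := z) (by omega) hzw hzx
          have hsv : ¬ G.Adj s y' := fun h => H.no s h sw hs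
          have hys : y ≠ s := by
            rintro rfl
            exact hyna sw
          have ays : G.Adj y s :=
            hcl (r + 1) le_rfl x q y s hlq qy sq.symm (by omega) (by omega) hys
          have hvs : y' ≠ s := by
            rintro rfl
            omega
          have two : ∀ a b c : V, G.Adj a b → G.Adj b c → a ≠ c → ¬ G.Adj a c →
              G.dist a c = 2 := by
            intro a b c e1 e2 e3 e4
            have f1 := tri hc a b c
            have f2 : G.dist a b = 1 := SimpleGraph.dist_eq_one_iff_adj.2 e1
            have f3 : G.dist b c = 1 := SimpleGraph.dist_eq_one_iff_adj.2 e2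
            have f4 := pos hc e3
            have f5 : G.dist a c ≠ 1 := fun h => e4 (SimpleGraph.dist_eq_one_iff_adj.1 h)
            omega
          have d01 : G.dist y' w = 1 := SimpleGraph.dist_eq_one_iff_adj.2 H.adj
          have d12 : G.dist w s = 1 := SimpleGraph.dist_eq_one_iff_adj.2 sw.symm
          have d23 : G.dist s y = 1 := SimpleGraph.dist_eq_one_iff_adj.2 ays.symm
          have d03 : G.dist y' y = 1 := SimpleGraph.dist_eq_one_iff_adj.2 yy'.symm
          have d02 : G.dist y' s = 2 := two y' w s H.adj sw.symm hvs (fun h => hsv h.symm)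
          have d13 : G.dist w y = 2 :=
            two w s y sw.symm ays.symm hyw.symm (fun h => hyna h.symm)
          refine hB 4 (by omega) ![y', w, s, y] ?_
          intro a b hab
          fin_cases a <;> fin_cases b <;>
            first
              | (exfalso; revert hab; decide)
              | (simp [d01, d12, d23, d03, d02, d13])
      · obtain ⟨y'', ay'', a2⟩ := closer hc hy'
        have a3 : G.dist x y'' = G.dist x y + 2 := by
          have b1 := lip hc x ay''.symm
          have b2 := tri hc x y'' v
          omega
        have a4 : y'' ≠ x := by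
          rintro rfl
          rw [SimpleGraph.dist_self] at a3
          omega
        have a5 := ih i (by omega) y'' a4 a2 (by omega) (by omega)
        have hny : y'' ≠ y := by
          rintro rfl
          omega
        have hna : ¬ G.Adj y'' y := fun h => by
          have := lip hc x h
          omega
        by_contra hne
        by_cases h0 : G.dist z y + 1 = G.dist z y'
        · refine hna (hcl (G.dist z y') (by omega) z y' y'' y rfl ay'' yy'.symm (by omega) h0 hny)
        · have h1 : G.dist z y = G.dist z y' := by omega
          obtain ⟨q, qy, qy', hq⟩ := htc (G.dist z y') (by omega) z y y' yy' h1 rfl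
          have hqne : q ≠ y'' := by
            rintro rfl
            exact hna qy
          have aq : G.Adj q y'' :=
            hcl (G.dist z y') (by omega) z y' q y'' rfl qy'.symm ay'' hq (by omega) hqne
          have hlq : G.dist x q = G.dist x y + 1 := by
            have := lip hc x qy
            have := lip hc x aq.symm
            omega
          have hqx : q ≠ x := by
            rintro rfl
            rw [SimpleGraph.dist_self] at hlq
            omega
          have f1 : G.dist q v ≤ G.dist y'' v + 1 := by
            rw [SimpleGraph.dist_comm (u := q), SimpleGraph.dist_comm (u := y'')]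
            exact lip hc v aq
          have f2 := tri hc x q v
          have f3 := ih (i + 1) (by omega) q hqx (by omega) (by omega) (by omega)
          omega

/-- T6 -/
theorem t6 (hc : G.Connected) (hcl : ∀ m : ℕ, m ≤ r + 1 → CLn G m)
    (htc : ∀ m : ℕ, m ≤ r → TCn G m) (H : VT G r x v w) {z : V} (hzx : z ≠ x)
    (hzw : G.dist x z + G.dist z w = r + 1) : ∀ (a : ℕ) (y : V), 1 ≤ a → G.dist x y = a →
      a + G.dist y v = r + 1 → a + G.dist x z ≤ r + 1 → G.dist z y = a + G.dist x z := by
  have hv := H.hv
  have hw := H.hw
  have hzpos := pos hc hzx.symm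
  have hcomm : G.dist z x = G.dist x z := SimpleGraph.dist_comm
  intro a
  induction a using Nat.strong_induction_on with
  | _ a ih =>
    intro y ha hxy hyu hle
    have hyx : y ≠ x := by
      rintro rfl
      rw [SimpleGraph.dist_self] at hxy
      omega
    by_cases ha1 : a = 1
    · subst ha1
      have hadj : G.Adj x y := SimpleGraph.dist_eq_one_iff_adj.1 hxy
      have c1 := lip hc z hadj
      have c2 := lip hc z hadj.symm
      by_contra hne
      by_cases h0 : G.dist z y + 1 = G.dist x z
      · have d1 := tri hc y z w
        have d2 := tri hc x y w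
        have d3 : G.dist y z = G.dist z y := SimpleGraph.dist_comm
        exact disj hc htc H (z := y) (by omega) (by omega) hyx
      · have h1 : G.dist z y = G.dist x z := by omega
        obtain ⟨q, qx, qy, hq⟩ := htc (G.dist x z) (by omega) z x y hadj hcomm h1
        have hxq : G.dist x q = 1 := SimpleGraph.dist_eq_one_iff_adj.2 qx.symm
        have d1 := tri hc q z w
        have d2 := tri hc x q w
        have d3 : G.dist q z = G.dist z q := SimpleGraph.dist_comm
        exact na hc hcl htc H (y := y) (y' := q) hxy hxq (by omega) (by omega) qy.symm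
    · obtain ⟨y', yy', hy'⟩ := parent hc (x := x) (y := y) (k := a - 1) (by omega)
      have e1 : G.dist y' v ≤ G.dist y v + 1 := by
        rw [SimpleGraph.dist_comm (u := y'), SimpleGraph.dist_comm (u := y)]
        exact lip hc v yy'.symm
      have e2 := tri hc x y' v
      have hzy' := ih (a - 1) (by omega) y' (by omega) hy' (by omega) (by omega)
      obtain ⟨y'', ay'', ly'', dy''⟩ : ∃ y'', G.Adj y' y'' ∧ G.dist x y'' + 2 = a ∧
          G.dist z y'' + 1 = G.dist z y' := by
        by_cases ha2 : a = 2
        · refine ⟨x, ?_, ?_, ?_⟩
          · exact (SimpleGraph.dist_eq_one_iff_adj.1 (by omega)).symm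
          · rw [SimpleGraph.dist_self]
            omega
          · omega
        · obtain ⟨y'', a1, a2⟩ := parent hc (x := x) (y := y') (k := a - 2) (by omega)
          have f1 : G.dist y'' v ≤ G.dist y' v + 1 := by
            rw [SimpleGraph.dist_comm (u := y''), SimpleGraph.dist_comm (u := y')]
            exact lip hc v a1.symm
          have f2 := tri hc x y'' v
          have f3 := ih (a - 2) (by omega) y'' (by omega) a2 (by omega) (by omega)
          exact ⟨y'', a1, by omega, by omega⟩
      have hny : y'' ≠ y := by
        rintro rfl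
        omega
      have hna : ¬ G.Adj y'' y := fun h => by
        have := lip hc x h.symm
        omega
      have c1 := lip hc z yy'
      have c2 := lip hc z yy'.symm
      by_contra hne
      by_cases h0 : G.dist z y + 1 = G.dist z y'
      · exact hna (hcl (G.dist z y') (by omega) z y' y'' y rfl ay'' yy'.symm dy'' h0 hny)
      · have h1 : G.dist z y = G.dist z y' := by omega
        obtain ⟨q, qy, qy', hq⟩ := htc (G.dist z y') (by omega) z y y' yy' h1 rfl
        have hqne : q ≠ y'' := by
          rintro rfl
          exact hna qy
        have aq : G.Adj q y'' :=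
          hcl (G.dist z y') (by omega) z y' q y'' rfl qy'.symm ay'' hq dy'' hqne
        have hlq : G.dist x q = a - 1 := by
          have := lip hc x qy.symm
          have := lip hc x aq
          omega
        have f1 : G.dist q v ≤ G.dist y v + 1 := by
          rw [SimpleGraph.dist_comm (u := q), SimpleGraph.dist_comm (u := y)]
          exact lip hc v qy
        have f2 := tri hc x q v
        have f3 := ih (a - 1) (by omega) q (by omega) hlq (by omega) (by omega)
        omega

end

end TcStep

open ClStep TcStep in
/-- Paper /team-store/h90_sys_paper.md, section 4, steps T1 to T7. -/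
theorem tc_step (G : SimpleGraph V) (hc : G.Connected) (hB : Bridged G) (r : ℕ)
    (hcl : ∀ m : ℕ, m ≤ r + 1 → CLn G m) (htc : ∀ m : ℕ, m ≤ r → TCn G m) : TCn G (r + 1) := by
  intro x v w avw hv hw
  by_contra hno
  push_neg at hno
  have H : VT G r x v w :=
    ⟨hv, hw, avw, fun p p1 p2 p3 => hno p p1 p2 (by omega)⟩
  have hr := H.one_le hc
  obtain ⟨a, a0, ar, aadj⟩ := geo hc x v (r + 1) hv
  obtain ⟨b, b0, br, badj⟩ := geo hc x w (r + 1) hw
  have key : ∀ (g : ℕ → V) (s : V), g 0 = x → g (r + 1) = s → G.dist x s = r + 1 →
      (∀ m, m < r + 1 → G.Adj (g m) (g (m + 1))) → ∀ i j, i ≤ j → j ≤ r + 1 →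
      G.dist (g i) (g j) = j - i := by
    intro g s g0 gr hs gadj i j hij hj
    have e1 := walk_le hc gadj 0 i (by omega)
    have e2 := walk_le hc gadj i (j - i) (by omega)
    have e3 := walk_le hc gadj j (r + 1 - j) (by omega)
    rw [zero_add, g0] at e1
    rw [show i + (j - i) = j by omega] at e2
    rw [show j + (r + 1 - j) = r + 1 by omega, gr] at e3
    have e4 := tri hc x (g i) s
    have e5 := tri hc (g i) (g j) s
    omega
  have keyA := key a v a0 ar hv aadj
  have keyB := key b w b0 br hw badj
  have levA : ∀ m, m ≤ r + 1 → G.dist x (a m) = m ∧ G.dist (a m) v = r + 1 - m := by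
    intro m hm
    have e1 := keyA 0 m (by omega) (by omega)
    have e2 := keyA m (r + 1) (by omega) le_rfl
    rw [a0] at e1
    rw [ar] at e2
    exact ⟨by omega, e2⟩
  have levB : ∀ m, m ≤ r + 1 → G.dist x (b m) = m ∧ G.dist (b m) w = r + 1 - m := by
    intro m hm
    have e1 := keyB 0 m (by omega) (by omega)
    have e2 := keyB m (r + 1) (by omega) le_rfl
    rw [b0] at e1
    rw [br] at e2
    exact ⟨by omega, e2⟩
  have cross : ∀ i j, 1 ≤ i → i ≤ r + 1 → 1 ≤ j → j ≤ r + 1 →
      G.dist (a i) (b j) = min (i + j) (2 * r + 3 - i - j) := by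
    intro i j hi hir hj hjr
    obtain ⟨p1, p2⟩ := levA i hir
    obtain ⟨q1, q2⟩ := levB j hjr
    have nx : ∀ z : V, ∀ k, 1 ≤ k → G.dist x z = k → z ≠ x := by
      rintro z k hk hz rfl
      rw [SimpleGraph.dist_self] at hz
      omega
    rw [SimpleGraph.dist_comm]
    by_cases hs : i + j ≤ r + 1
    · rw [t6 hc hcl htc H (nx _ j hj q1) (by omega) i (a i) hi p1 (by omega) (by omega)]
      omega
    · rw [t5 hc hB hcl htc H (nx _ j hj q1) (by omega) (r + 1 - i) (a i) (nx _ i hi p1) p2
        (by omega) (by omega)]
      omega
  refine hB (2 * r + 3) (by omega) (fun k : Fin (2 * r + 3) =>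
    if k.val ≤ r + 1 then a k.val else b (2 * r + 3 - k.val)) ?_
  rintro ⟨m, hi⟩ ⟨n, hj⟩ hij
  have hij' : m ≤ n := hij
  change G.dist (if m ≤ r + 1 then a m else b (2 * r + 3 - m))
    (if n ≤ r + 1 then a n else b (2 * r + 3 - n)) =
    min (n - m) (2 * r + 3 - (n - m))
  by_cases h1 : n ≤ r + 1
  · rw [if_pos h1, if_pos (by omega), keyA m n hij' h1]
    omega
  · rw [if_neg h1]
    by_cases h2 : m ≤ r + 1
    · rw [if_pos h2]
      by_cases h4 : m = 0
      · subst h4
        rw [a0, (levB _ (by omega)).1]
        omega
      · rw [cross m (2 * r + 3 - n) (by omega) (by omega) (by omega) (by omega)]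
        omega
    · rw [if_neg h2]
      have e1 := keyB (2 * r + 3 - n) (2 * r + 3 - m) (by omega) (by omega)
      rw [SimpleGraph.dist_comm, e1]
      omega

end Pool.H90SY
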