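import Pool.Agent.H90.SY.Coarse
import Pool.Agent.H90.SY.ClStep
import Pool.Agent.H90.SY.TcStep
import Pool.Agent.H90.SY.Grp

set_option autoImplicit false

namespace Pool.H90SY

universe u

variable {V : Type u}

theorem cl_tc (G : SimpleGraph V) (hc : G.Connected) (hB : Bridged G) :
    ∀ n : ℕ, (∀ m : ℕ, m ≤ n → CLn G m) ∧ (∀ m : ℕ, m ≤ n → TCn G m) := by
  intro n
  induction n with
  | zero =>
    constructor
    · intro m hm x v u w _ _ _ h4
      omega
    · intro m hm x v w hadj h1 h2
      have hm0 : m = 0 := by omega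
      rw [hm0] at h1 h2
      have e1 : x = v := (hc.dist_eq_zero_iff).mp h1
      have e2 : x = w := (hc.dist_eq_zero_iff).mp h2
      exact absurd (e1.symm.trans e2) hadj.ne
  | succ n ih =>
    obtain ⟨h1, h2⟩ := ih
    have h3 := cl_step G hc hB n h1 h2
    have h4 : ∀ m : ℕ, m ≤ n + 1 → CLn G m := by
      intro m hm
      rcases Nat.lt_or_ge m (n + 1) with h | h
      · exact h1 m (by omega)
      · have : m = n + 1 := by omega
        rw [this]
        exact h3
    have h5 := tc_step G hc hB n h4 h2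
    refine ⟨h4, ?_⟩
    intro m hm
    rcases Nat.lt_or_ge m (n + 1) with h | h
    · exact h2 m (by omega)
    · have : m = n + 1 := by omega
      rw [this]
      exact h5

theorem k4_false (G : SimpleGraph V) (hK : G.CliqueFree 4) (a b c d : V) (h1 : G.Adj a b)
    (h2 : G.Adj a c) (h3 : G.Adj a d) (h4 : G.Adj b c) (h5 : G.Adj b d) (h6 : G.Adj c d) :
    False := by
  classical
  apply hK {a, b, c, d}
  refine ⟨?_, ?_⟩
  · intro x hx y hy hxy
    simp only [Finset.coe_insert, Finset.coe_singleton, Set.mem_insert_iff,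
      Set.mem_singleton_iff] at hx hy
    rcases hx with rfl | rfl | rfl | rfl <;> rcases hy with rfl | rfl | rfl | rfl <;>
      first
      | exact absurd rfl hxy
      | assumption
      | (apply SimpleGraph.Adj.symm; assumption)
  · have n1 := h1.ne
    have n2 := h2.ne
    have n3 := h3.ne
    have n4 := h4.ne
    have n5 := h5.ne
    have n6 := h6.ne
    rw [Finset.card_insert_of_notMem, Finset.card_insert_of_notMem, Finset.card_insert_of_notMem,
      Finset.card_singleton]
    · simpa using n6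
    · simp [n4, n5]
    · simp [n1, n2, n3]

theorem dist_two (G : SimpleGraph V) (hc : G.Connected) (a b c : V) (h1 : G.Adj a b)
    (h2 : G.Adj b c) (h3 : a ≠ c) (h4 : ¬ G.Adj a c) : G.dist a c = 2 := by
  have e1 : G.dist a b = 1 := SimpleGraph.dist_eq_one_iff_adj.mpr h1
  have e2 : G.dist b c = 1 := SimpleGraph.dist_eq_one_iff_adj.mpr h2
  have h5 := hc.dist_triangle (u := a) (v := b) (w := c)
  have h6 : G.dist a c ≠ 0 := fun h => h3 ((hc.dist_eq_zero_iff).mp h)
  have h7 : G.dist a c ≠ 1 := fun h => h4 (SimpleGraph.dist_eq_one_iff_adj.mp h)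
  omega

theorem w5_false (G : SimpleGraph V) (hc : G.Connected) (hK : G.CliqueFree 4) (hB : Bridged G)
    (z a b c d e : V) (za : G.Adj z a) (zb : G.Adj z b) (zc : G.Adj z c) (zd : G.Adj z d)
    (ze : G.Adj z e) (ab : G.Adj a b) (bc : G.Adj b c) (cd : G.Adj c d) (de : G.Adj d e)
    (ea : G.Adj e a) (hac : a ≠ c) (had : a ≠ d) (hbd : b ≠ d) (hbe : b ≠ e) (hce : c ≠ e) :
    False := by
  have nac : ¬ G.Adj a c := fun h => k4_false G hK z a b c za zb zc ab h bc
  have nad : ¬ G.Adj a d := fun h => k4_false G hK z a d e za zd ze h ea.symm de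
  have nbd : ¬ G.Adj b d := fun h => k4_false G hK z b c d zb zc zd bc h cd
  have nbe : ¬ G.Adj b e := fun h => k4_false G hK z a b e za zb ze ab ea.symm h
  have nce : ¬ G.Adj c e := fun h => k4_false G hK z c d e zc zd ze cd h de
  have d1 : G.dist a b = 1 := SimpleGraph.dist_eq_one_iff_adj.mpr ab
  have d2 : G.dist b c = 1 := SimpleGraph.dist_eq_one_iff_adj.mpr bc
  have d3 : G.dist c d = 1 := SimpleGraph.dist_eq_one_iff_adj.mpr cd
  have d4 : G.dist d e = 1 := SimpleGraph.dist_eq_one_iff_adj.mpr de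
  have d5 : G.dist a e = 1 := SimpleGraph.dist_eq_one_iff_adj.mpr ea.symm
  have d6 : G.dist a c = 2 := dist_two G hc a b c ab bc hac nac
  have d7 : G.dist a d = 2 := dist_two G hc a e d ea.symm de.symm had nad
  have d8 : G.dist b d = 2 := dist_two G hc b c d bc cd hbd nbd
  have d9 : G.dist b e = 2 := dist_two G hc b a e ab.symm ea.symm hbe nbe
  have d10 : G.dist c e = 2 := dist_two G hc c d e cd de hce nce
  apply hB 5 (by norm_num) ![a, b, c, d, e]
  intro i j hij
  fin_cases i <;> fin_cases j <;> simp at hij ⊢ <;> first | assumption | exact ea.symm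

theorem lay_of_bridged (G : SimpleGraph V) (hc : G.Connected) (hK : G.CliqueFree 4)
    (hB : Bridged G) (x0 : V) : Lay G x0 where
  conn := hc
  cl := by
    intro v u w h1 h2 h3 h4 hne
    exact ((cl_tc G hc hB (G.dist x0 v)).1 _ (le_refl _)) x0 v u w rfl h1 h2 h3 h4 hne
  tc := by
    intro v w h1 h2
    exact ((cl_tc G hc hB (G.dist x0 v)).2 _ (le_refl _)) x0 v w h1 rfl h2.symm
  k4 := k4_false G hK
  w5 := w5_false G hc hK hB

/-- K4-free bridged graphs have Nagata dimension at most two. -/
theorem bridged_cover (G : SimpleGraph V) (hc : G.Connected) (hK : G.CliqueFree 4)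
    (hB : Bridged G) : ∀ R : ℕ, 1 ≤ R → CoverAt G.dist 2 R (76 * R) := by
  obtain ⟨x0⟩ := hc.nonempty
  exact lay_cover (lay_of_bridged G hc hK hB x0)

end Pool.H90SY
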